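import Pool.Graph.R_seed8.H189R2.Lev.Lines

/-! The number of lines which reach a given rank between two abscissae, and the number of the
crossings between these abscissae. -/

set_option autoImplicit false

open Finset

namespace Pool.Agent.H133.LD

open Pool.Agent.H189R2.Lev

variable {n : ℕ}

theorem sum_abs_low (k : ℕ) : ∀ N : ℕ, N ≤ k + 1 →
    2 * ∑ r ∈ range N, |(r : ℤ) - k| = N * (2 * k - N + 1)
  | 0, _ => by simp
  | N + 1, h => by
    rw [sum_range_succ, mul_add, sum_abs_low k N (by omega)]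
    have h1 : |(N : ℤ) - k| = k - N := by
      rw [abs_of_nonpos (by have : (N : ℤ) ≤ k := by exact_mod_cast (by omega : N ≤ k)
                            linarith)]
      ring
    rw [h1]
    push_cast
    ring

theorem sum_abs_high (k : ℕ) : ∀ u : ℕ,
    2 * ∑ r ∈ range (k + 1 + u), |(r : ℤ) - k| = k * (k + 1) + u * (u + 1)
  | 0 => by
    rw [Nat.add_zero, sum_abs_low k (k + 1) le_rfl]
    push_cast
    ring
  | u + 1 => by
    rw [← Nat.add_assoc, sum_range_succ, mul_add, sum_abs_high k u]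
    have h1 : |((k + 1 + u : ℕ) : ℤ) - k| = u + 1 := by
      rw [abs_of_nonneg (by push_cast; linarith)]
      push_cast
      ring
    rw [h1]
    push_cast
    ring

theorem sum_abs (k N : ℕ) : (N : ℤ) ^ 2 ≤ 4 * ∑ r ∈ range N, |(r : ℤ) - k| + 1 := by
  rcases Nat.lt_or_ge N (k + 1) with h | h
  · have h1 := sum_abs_low k N h.le
    have h2 : (N : ℤ) ≤ k := by exact_mod_cast (by omega : N ≤ k)
    have h3 : (0 : ℤ) ≤ N := by positivity
    have e : 4 * ∑ r ∈ range N, |(r : ℤ) - k| = 2 * (N * (2 * k - N + 1)) := by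
      rw [← h1]; ring
    rw [e]
    nlinarith
  · obtain ⟨u, rfl⟩ := Nat.exists_eq_add_of_le h
    have h1 := sum_abs_high k u
    have e : 4 * ∑ r ∈ range (k + 1 + u), |(r : ℤ) - k| = 2 * (k * (k + 1) + u * (u + 1)) := by
      rw [← h1]; ring
    rw [e]
    push_cast
    nlinarith [sq_nonneg ((k : ℤ) - u)]

/-- an affine function changes its sign at most once -/
theorem once {a b : ℝ} {x t y : ℝ} (h1 : x < t) (h2 : t < y)
    (hx : a * x + b < 0) (ht : 0 ≤ a * t + b) : ¬ (a * y + b < 0) := by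
  intro hy
  have h3 : 0 < a * (t - x) := by nlinarith
  have h4 : a * (y - t) < 0 := by nlinarith
  have h5 : 0 < a := by
    by_contra h
    have : a ≤ 0 := not_lt.mp h
    nlinarith
  nlinarith

section

variable (a B : Fin n → ℝ)

/-- the lines of `P` below the line `p` above the abscissa `x` -/
noncomputable def bel (P : Finset (Fin n)) (x : ℝ) (p : Fin n) : Finset (Fin n) :=
  by classical exact P.filter (fun q => ht a B q x < ht a B p x)

/-- the lines of `P` which change sides with the line `p` between `x` and `y` -/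
noncomputable def chg (P : Finset (Fin n)) (x y : ℝ) (p : Fin n) : Finset (Fin n) :=
  by classical exact P.filter (fun q => ¬ (ht a B q x < ht a B p x ↔ ht a B q y < ht a B p y))

variable {a B}

theorem mem_bel {P : Finset (Fin n)} {x : ℝ} {p q : Fin n} :
    q ∈ bel a B P x p ↔ q ∈ P ∧ ht a B q x < ht a B p x := by
  unfold bel; simp

theorem mem_chg {P : Finset (Fin n)} {x y : ℝ} {p q : Fin n} :
    q ∈ chg a B P x y p ↔ q ∈ P ∧ ¬ (ht a B q x < ht a B p x ↔ ht a B q y < ht a B p y) := by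
  unfold chg; simp

theorem card_sub_le {P : Finset (Fin n)} (x y : ℝ) (p : Fin n) :
    |((bel a B P x p).card : ℤ) - (bel a B P y p).card| ≤ (chg a B P x y p).card := by
  classical
  have h1 : (bel a B P x p).card ≤ (bel a B P y p).card + (chg a B P x y p).card := by
    rw [← Nat.sub_le_iff_le_add']
    refine (le_card_sdiff _ _).trans (card_le_card ?_)
    intro q hq
    rw [mem_sdiff, mem_bel, mem_bel] at hq
    rw [mem_chg]
    exact ⟨hq.1.1, fun h => hq.2 ⟨hq.1.1, h.mp hq.1.2⟩⟩
  have h2 : (bel a B P y p).card ≤ (bel a B P x p).card + (chg a B P x y p).card := by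
    rw [← Nat.sub_le_iff_le_add']
    refine (le_card_sdiff _ _).trans (card_le_card ?_)
    intro q hq
    rw [mem_sdiff, mem_bel, mem_bel] at hq
    rw [mem_chg]
    exact ⟨hq.1.1, fun h => hq.2 ⟨hq.1.1, h.mpr hq.1.2⟩⟩
  rw [abs_le]
  constructor <;> omega

theorem chg_split {P : Finset (Fin n)} {x t y : ℝ} (hxt : x < t) (hty : t < y) {p : Fin n}
    (hx : ∀ q ∈ P, q ≠ p → ht a B q x ≠ ht a B p x) (ht' : ∀ q ∈ P, q ≠ p → ht a B q t ≠ ht a B p t)
    (hy : ∀ q ∈ P, q ≠ p → ht a B q y ≠ ht a B p y) :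
    (chg a B P x t p).card + (chg a B P t y p).card ≤ (chg a B P x y p).card := by
  classical
  have key : ∀ q ∈ P, ¬ (¬ (ht a B q x < ht a B p x ↔ ht a B q t < ht a B p t) ∧
      ¬ (ht a B q t < ht a B p t ↔ ht a B q y < ht a B p y)) := by
    rintro q hq ⟨h1, h2⟩
    have hqp : q ≠ p := by
      rintro rfl
      exact h1 (by simp)
    have e1 : ∀ z, ht a B q z < ht a B p z ↔ (a q - a p) * z + (B q - B p) < 0 := by
      intro z
      unfold ht
      constructor <;> intro h <;> linarith
    have e2 : ∀ z, ht a B p z < ht a B q z ↔ (a p - a q) * z + (B p - B q) < 0 := by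
      intro z
      unfold ht
      constructor <;> intro h <;> linarith
    rcases lt_or_gt_of_ne (hx q hq hqp) with h3 | h3
    · have h4 : ¬ ht a B q t < ht a B p t := fun h => h1 (iff_of_true h3 h)
      have h5 : ht a B q y < ht a B p y := by
        by_contra h
        exact h2 (iff_of_false h4 h)
      refine once hxt hty ((e1 x).mp h3) ?_ ((e1 y).mp h5)
      rw [e1] at h4
      exact not_lt.mp h4
    · have h4 : ht a B q t < ht a B p t := by
        by_contra h
        exact h1 (iff_of_false (not_lt.mpr h3.le) h)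
      have h5 : ¬ ht a B q y < ht a B p y := fun h => h2 (iff_of_true h4 h)
      have h6 : ht a B p y < ht a B q y := lt_of_le_of_ne (not_lt.mp h5) (hy q hq hqp).symm
      refine once hxt hty ((e2 x).mp h3) ?_ ((e2 y).mp h6)
      by_contra h7
      exact absurd ((e2 t).mpr (not_le.mp h7)) (not_lt.mpr h4.le)
  have hdis : Disjoint (chg a B P x t p) (chg a B P t y p) := by
    rw [disjoint_left]
    intro q hq hq'
    rw [mem_chg] at hq hq'
    exact key q hq.1 ⟨hq.2, hq'.2⟩
  rw [← card_union_of_disjoint hdis]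
  apply card_le_card
  intro q hq
  rw [mem_union, mem_chg, mem_chg] at hq
  rw [mem_chg]
  rcases hq with ⟨h1, h2⟩ | ⟨h1, h2⟩
  · refine ⟨h1, fun h => ?_⟩
    have := key q h1
    tauto
  · refine ⟨h1, fun h => ?_⟩
    have := key q h1
    tauto

/-- ranks -/
theorem sum_rank {P : Finset (Fin n)} {x : ℝ}
    (hx : ∀ p ∈ P, ∀ q ∈ P, q ≠ p → ht a B q x ≠ ht a B p x) (f : ℕ → ℤ) :
    ∑ p ∈ P, f ((bel a B P x p).card) = ∑ r ∈ range P.card, f r := by
  classical
  have hinj : Set.InjOn (fun p => (bel a B P x p).card) (P : Set (Fin n)) := by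
    have mono : ∀ p ∈ P, ∀ q ∈ P, ht a B p x < ht a B q x →
        (bel a B P x p).card < (bel a B P x q).card := by
      intro p hp q hq h
      apply card_lt_card
      rw [ssubset_iff_of_subset]
      · refine ⟨p, mem_bel.mpr ⟨hp, h⟩, ?_⟩
        rw [mem_bel]
        exact fun h => lt_irrefl _ h.2
      · intro r hr
        rw [mem_bel] at hr ⊢
        exact ⟨hr.1, hr.2.trans h⟩
    intro p hp q hq hpq
    simp only at hpq
    by_contra hne
    rcases lt_or_gt_of_ne (hx p hp q hq (Ne.symm hne)) with h | h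
    · have := mono q hq p hp h
      omega
    · have := mono p hp q hq h
      omega
  have himg : P.image (fun p => (bel a B P x p).card) = range P.card := by
    apply eq_of_subset_of_card_le
    · intro r hr
      rw [mem_image] at hr
      obtain ⟨p, hp, rfl⟩ := hr
      rw [mem_range]
      apply card_lt_card
      rw [ssubset_iff_of_subset (fun q hq => (mem_bel.mp hq).1)]
      refine ⟨p, hp, ?_⟩
      rw [mem_bel]
      exact fun h => lt_irrefl _ h.2
    · rw [card_image_of_injOn hinj, card_range]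
  rw [← himg, sum_image hinj]

/-- the crossings between `x` and `y` of the lines of `P` -/
def crs (a B : Fin n → ℝ) (P : Finset (Fin n)) (x y : ℝ) : Set (Fin n × Fin n) :=
  {q | q.1 < q.2 ∧ q.1 ∈ P ∧ q.2 ∈ P ∧ ∃ z ∈ Set.Ioo x y, ht a B q.1 z = ht a B q.2 z}

theorem exists_cross {x y : ℝ} (hxy : x < y) {p q : Fin n}
    (hx : ht a B q x ≠ ht a B p x) (hy : ht a B q y ≠ ht a B p y)
    (h : ¬ (ht a B q x < ht a B p x ↔ ht a B q y < ht a B p y)) :
    ∃ z ∈ Set.Ioo x y, ht a B q z = ht a B p z := by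
  have hc : ContinuousOn (fun z => ht a B q z - ht a B p z) (Set.Icc x y) := by
    unfold ht
    fun_prop
  rcases lt_or_gt_of_ne hx with h1 | h1
  · have h2 : ht a B p y < ht a B q y := by
      by_contra h3
      exact h (iff_of_true h1 (lt_of_le_of_ne (not_lt.mp h3) hy))
    have := intermediate_value_Ioo hxy.le hc
    obtain ⟨z, hz, hz2⟩ := this (show (0 : ℝ) ∈ _ from ⟨by linarith, by linarith⟩)
    exact ⟨z, hz, by simp only at hz2; linarith⟩
  · have h2 : ht a B q y < ht a B p y := by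
      by_contra h3
      exact h (iff_of_false (not_lt.mpr h1.le) h3)
    have := intermediate_value_Ioo' hxy.le hc
    obtain ⟨z, hz, hz2⟩ := this (show (0 : ℝ) ∈ _ from ⟨by linarith, by linarith⟩)
    exact ⟨z, hz, by simp only at hz2; linarith⟩

theorem sum_chg {P : Finset (Fin n)} {x y : ℝ} (hxy : x < y)
    (hx : ∀ p ∈ P, ∀ q ∈ P, q ≠ p → ht a B q x ≠ ht a B p x)
    (hy : ∀ p ∈ P, ∀ q ∈ P, q ≠ p → ht a B q y ≠ ht a B p y) :
    ∑ p ∈ P, (chg a B P x y p).card ≤ 2 * (crs a B P x y).ncard := by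
  classical
  have e : ∑ p ∈ P, (chg a B P x y p).card = (P.sigma (fun p => chg a B P x y p)).card := by
    rw [card_sigma]
  have hsplit : (P.sigma (fun p => chg a B P x y p)).card =
      ((P.sigma (fun p => chg a B P x y p)).filter (fun s => s.1 < s.2)).card +
      ((P.sigma (fun p => chg a B P x y p)).filter (fun s => ¬ s.1 < s.2)).card :=
    (card_filter_add_card_filter_not _).symm
  have hne : ∀ p q, q ∈ chg a B P x y p → q ≠ p := by
    rintro p q hq rfl
    rw [mem_chg] at hq
    exact hq.2 (by simp)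
  have h1 : ((P.sigma (fun p => chg a B P x y p)).filter (fun s => s.1 < s.2)).card ≤
      (crs a B P x y).ncard := by
    rw [← Set.ncard_coe_finset]
    apply Set.ncard_le_ncard_of_injOn (fun s => (s.1, s.2))
    · rintro ⟨p, q⟩ hs
      simp only [coe_filter, mem_sigma, Set.mem_ofPred_eq] at hs
      obtain ⟨⟨hp, hq⟩, hlt⟩ := hs
      have hqp := hne p q hq
      rw [mem_chg] at hq
      obtain ⟨z, hz, hz2⟩ := exists_cross hxy (hx p hp q hq.1 hqp) (hy p hp q hq.1 hqp) hq.2
      exact ⟨hlt, hp, hq.1, z, hz, hz2.symm⟩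
    · rintro ⟨p, q⟩ _ ⟨p', q'⟩ _ h
      simp only [Prod.mk.injEq] at h
      obtain ⟨rfl, rfl⟩ := h
      rfl
  have h2 : ((P.sigma (fun p => chg a B P x y p)).filter (fun s => ¬ s.1 < s.2)).card ≤
      (crs a B P x y).ncard := by
    rw [← Set.ncard_coe_finset]
    apply Set.ncard_le_ncard_of_injOn (fun s => (s.2, s.1))
    · rintro ⟨p, q⟩ hs
      simp only [coe_filter, mem_sigma, Set.mem_ofPred_eq] at hs
      obtain ⟨⟨hp, hq⟩, hlt⟩ := hs
      have hqp := hne p q hq
      rw [mem_chg] at hq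
      obtain ⟨z, hz, hz2⟩ := exists_cross hxy (hx p hp q hq.1 hqp) (hy p hp q hq.1 hqp) hq.2
      exact ⟨lt_of_le_of_ne (not_lt.mp hlt) hqp, hq.1, hp, z, hz, hz2⟩
    · rintro ⟨p, q⟩ _ ⟨p', q'⟩ _ h
      simp only [Prod.mk.injEq] at h
      obtain ⟨rfl, rfl⟩ := h
      rfl
  rw [e, hsplit]
  omega

/-- **The rank count.** If all lines of `P` have rank `k` in `P` somewhere between `x` and `y`, then
there are at least `(|P|² - 1) / 4` crossings of these lines between `x` and `y`. -/
theorem rank_count {P : Finset (Fin n)} {x y : ℝ} (hxy : x < y) (k : ℕ)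
    (hx : ∀ p ∈ P, ∀ q ∈ P, q ≠ p → ht a B q x ≠ ht a B p x)
    (hy : ∀ p ∈ P, ∀ q ∈ P, q ≠ p → ht a B q y ≠ ht a B p y)
    (hk : ∀ p ∈ P, ∃ t ∈ Set.Ioo x y, (∀ q ∈ P, q ≠ p → ht a B q t ≠ ht a B p t) ∧
      (bel a B P t p).card = k) :
    P.card ^ 2 ≤ 4 * (crs a B P x y).ncard + 1 := by
  classical
  have h1 : ∀ p ∈ P, |((bel a B P x p).card : ℤ) - k| + |((bel a B P y p).card : ℤ) - k| ≤
      (chg a B P x y p).card := by
    intro p hp
    obtain ⟨t, ht1, ht2, ht3⟩ := hk p hp
    have h2 := chg_split ht1.1 ht1.2 (hx p hp) ht2 (hy p hp)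
    have h3 := card_sub_le (a := a) (B := B) (P := P) x t p
    have h4 := card_sub_le (a := a) (B := B) (P := P) t y p
    rw [ht3] at h3 h4
    rw [abs_sub_comm] at h4
    have h5 : ((chg a B P x t p).card : ℤ) + (chg a B P t y p).card ≤ (chg a B P x y p).card := by
      exact_mod_cast h2
    linarith
  have h2 : ∑ p ∈ P, (|((bel a B P x p).card : ℤ) - k| + |((bel a B P y p).card : ℤ) - k|) ≤
      ∑ p ∈ P, ((chg a B P x y p).card : ℤ) := sum_le_sum h1
  rw [sum_add_distrib, sum_rank hx (fun r => |(r : ℤ) - k|), sum_rank hy (fun r => |(r : ℤ) - k|)]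
    at h2
  have h3 : ∑ p ∈ P, ((chg a B P x y p).card : ℤ) ≤ 2 * (crs a B P x y).ncard := by
    exact_mod_cast sum_chg hxy hx hy
  have h4 := sum_abs k P.card
  have h5 : (P.card : ℤ) ^ 2 ≤ 4 * (crs a B P x y).ncard + 1 := by linarith
  exact_mod_cast h5

end

end Pool.Agent.H133.LD
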