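import Pool.Graph.R_seed8.Y344.KD.Final

/-! Dey's bound for the number of vertices of the `k`-level, in the form used here. -/

set_option autoImplicit false

open Finset

namespace Pool.Agent.H133.LD

open Pool.Agent.Results.MP_a08d0a_co.SmoothedLevel (Simple psi crossings psi_le)
open Pool.Agent.H189R2.Lev Pool.Agent.H189R2.Iid Pool.Agent.Y344.KD

variable {n : ℕ}

theorem crossings_EW {a B : Fin n → ℝ} {P : Fin n → ℝ × ℝ}
    (hP : ∀ i j, a j < a i → (P j).1 < (P i).1 ∧ ∀ l, (P l ∈ low (P i) (P j) ↔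
      ht a B l (cr a B i j) < ht a B i (cr a B i j))) (W : Finset ℕ) :
    (⋃ k ∈ W, crossings a B k).ncard ≤ (EW P W).card := by
  classical
  rw [← Set.ncard_coe_finset]
  apply Set.ncard_le_ncard_of_injOn
    (fun q : Fin n × Fin n => if a q.2 < a q.1 then q else q.swap)
  · rintro ⟨i, j⟩ hq
    simp only [Set.mem_iUnion] at hq
    obtain ⟨k, hk, h1, h2, h3⟩ := hq
    simp only at h1 h2 h3
    have key : ∀ i j : Fin n, a j < a i →
        {l | ht a B l (cr a B i j) < ht a B i (cr a B i j)}.ncard = k → (i, j) ∈ EW P W := by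
      intro i j hij hc
      unfold EW
      rw [mem_filter, mem_T]
      refine ⟨(hP i j hij).1, ?_⟩
      have : lev P (i, j) = k := by
        rw [← hc]
        unfold lev
        rw [← Set.ncard_coe_finset]
        congr 1
        ext l
        simp only [coe_filter, mem_univ, true_and, Set.mem_ofPred_eq]
        exact (hP i j hij).2 l
      rw [this]
      exact hk
    by_cases h : a j < a i
    · simp only [h, if_true]
      exact key i j h h3
    · simp only [h, if_false]
      apply key j i (lt_of_le_of_ne (not_lt.mp h) h2)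
      rw [cr_symm, ht_cr h2]
      exact h3
  · rintro ⟨i, j⟩ hq ⟨i', j'⟩ hq' heq
    simp only [Set.mem_iUnion] at hq hq'
    obtain ⟨k, hk, h1, -, -⟩ := hq
    obtain ⟨k', hk', h1', -, -⟩ := hq'
    simp only at h1 h1' heq
    split_ifs at heq with h h' h'
    · exact heq
    · rw [Prod.swap_prod_mk, Prod.mk.injEq] at heq
      rw [heq.1, heq.2] at h1
      exact absurd h1' (lt_asymm h1)
    · rw [Prod.swap_prod_mk, Prod.mk.injEq] at heq
      rw [← heq.1, ← heq.2] at h1'
      exact absurd h1' (lt_asymm h1)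
    · rw [Prod.swap_prod_mk, Prod.swap_prod_mk, Prod.mk.injEq] at heq
      rw [heq.1, heq.2]

/-- **Dey's bound** for the `k`-level. -/
theorem dey {a B : Fin n → ℝ} (hS : Simple a B) {k : ℕ} (hk : k < n) :
    psi a B k ≠ ⊤ ∧ ((psi a B k).toNat : ℝ) ≤ 29 * n * ((k : ℝ) + 1) ^ (1 / 3 : ℝ) := by
  classical
  obtain ⟨P, hGP, hP⟩ := exists_GP hS
  have h0 := psi_le hS hk
  obtain ⟨h1, h2⟩ := toNat_le h0
  refine ⟨h1, ?_⟩
  have hn : (0 : ℝ) ≤ n := Nat.cast_nonneg n
  have hk0 : (0 : ℝ) ≤ (k : ℝ) + 1 := by positivity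
  have hkr : (0 : ℝ) ≤ ((k : ℝ) + 1) ^ (1 / 3 : ℝ) := by positivity
  have two : (2 : ℝ) ^ (2 / 3 : ℝ) ≤ 1.6 := by
    have : (2 : ℝ) ^ (2 / 3 : ℝ) = ((2 : ℝ) ^ 2) ^ (1 / 3 : ℝ) := by
      rw [← Real.rpow_natCast, ← Real.rpow_mul (by norm_num)]
      norm_num
    rw [this]
    calc ((2 : ℝ) ^ 2) ^ (1 / 3 : ℝ) ≤ ((1.6 : ℝ) ^ 3) ^ (1 / 3 : ℝ) :=
          Real.rpow_le_rpow (by norm_num) (by norm_num) (by norm_num)
      _ = 1.6 := by
          rw [← Real.rpow_natCast, ← Real.rpow_mul (by norm_num)]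
          norm_num
  rcases Nat.eq_zero_or_pos k with rfl | hkp
  · simp only [if_true, add_zero] at h2
    have h3 := crossings_EW hP {0}
    simp only [mem_singleton, Set.iUnion_iUnion_eq_left] at h3
    have h4 := window hGP {0} (K := 0) (by simp)
    rw [card_singleton] at h4
    have h5 : ((psi a B 0).toNat : ℝ) ≤ ((EW P {0}).card : ℝ) := by exact_mod_cast h2.trans h3
    refine h5.trans (h4.trans ?_)
    simp only [Nat.cast_zero, zero_add, Real.one_rpow, Nat.cast_one, mul_one]
    nlinarith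
  · rw [if_neg (by omega : ¬ k = 0)] at h2
    have h3 := crossings_EW hP {k, k - 1}
    have hdis : Disjoint (crossings a B k) (crossings a B (k - 1)) := by
      rw [Set.disjoint_left]
      rintro q ⟨_, _, h⟩ ⟨_, _, h'⟩
      omega
    have hun : (⋃ j ∈ ({k, k - 1} : Finset ℕ), crossings a B j) =
        crossings a B k ∪ crossings a B (k - 1) := by
      ext q
      simp
    rw [hun, Set.ncard_union_eq hdis] at h3
    have h4 := window hGP {k, k - 1} (K := k) (by
      intro j hj
      rw [mem_insert, mem_singleton] at hj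
      omega)
    rw [card_pair (by omega)] at h4
    have h5 : ((psi a B k).toNat : ℝ) ≤ ((EW P {k, k - 1}).card : ℝ) := by
      exact_mod_cast h2.trans h3
    refine h5.trans (h4.trans ?_)
    push_cast
    have e : 18 * (n : ℝ) * (((k : ℝ) + 1) ^ (1 / 3 : ℝ) * 2 ^ (2 / 3 : ℝ)) =
      (n * ((k : ℝ) + 1) ^ (1 / 3 : ℝ)) * (18 * 2 ^ (2 / 3 : ℝ)) := by ring
    rw [e]
    have hX : 0 ≤ n * ((k : ℝ) + 1) ^ (1 / 3 : ℝ) := by positivity
    nlinarith

end Pool.Agent.H133.LD
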