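import Pool.Agent.H133.LD.Sharp

/-! The bound for the `k`-level above an interval, with its dependence on `k`. -/

set_option autoImplicit false

open Finset Filter
open scoped Topology

namespace Pool.Agent.H133.LD

open Pool.Agent.Results.MP_a08d0a_co.SmoothedLevel (Simple psi level level_eq exists_level)
open Pool.Agent.H189R2.Lev
open Pool.Agent.Y344.KD (sub simple_sub toNat_le)

variable {n : ℕ} {a B : Fin n → ℝ} {k : ℕ}

/-- the rank of the level among its own lines is at most `k` -/
theorem rank_le (hS : Simple a B) (hk : k < n) {J : Set ℝ} (hJ : IsOpen J) (hne : J.Nonempty)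
    {j : ℕ} (hj : j < (LF a B (level a B k) J).card)
    (h : ∀ x ∈ J, level (sub a (LF a B (level a B k) J)) (sub B (LF a B (level a B k) J)) j x =
      level a B k x) : j ≤ k := by
  classical
  set P := LF a B (level a B k) J with hP
  obtain ⟨x0, hx0⟩ := hne
  obtain ⟨x, hx, -, hxb⟩ := exists_left hS hJ hx0
  obtain ⟨⟨i, hi⟩, h1, h2⟩ := level_spec (a := a) (B := B) hk x
  obtain ⟨-, h3, h4⟩ := level_spec (a := sub a P) (B := sub B P) hj x
  rw [h x hx] at h3 h4
  have e4 : {l | ht (sub a P) (sub B P) l x ≤ level a B k x}.ncard =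
      (P.filter (fun l => ht a B l x ≤ level a B k x)).card :=
    sub_count P (fun l => ht a B l x ≤ level a B k x)
  rw [e4] at h4
  have h5 : P.filter (fun l => ht a B l x ≤ level a B k x) ⊆
      insert i (univ.filter (fun l => ht a B l x < level a B k x)) := by
    intro l hl
    rw [mem_filter] at hl
    rw [mem_insert, mem_filter]
    by_cases hli : l = i
    · exact Or.inl hli
    · right
      refine ⟨mem_univ _, lt_of_le_of_ne hl.2 ?_⟩
      intro h6
      exact hxb ⟨l, i, hli, h6.trans hi⟩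
  have h6 := card_le_card h5
  have h7 : (univ.filter (fun l => ht a B l x < level a B k x)).card =
      {l | ht a B l x < level a B k x}.ncard := by
    rw [← Set.ncard_coe_finset]
    congr 1
    ext l
    simp
  have h8 := card_insert_le i (univ.filter (fun l => ht a B l x < level a B k x))
  omega

theorem level_local (hS : Simple a B) (hk : k < n) {J : Set ℝ} (hJ : IsOpen J)
    (hJc : J.OrdConnected) :
    ((turns a B (level a B k) J).ncard : ℝ) ≤
      29 * √(4 * (cross a B (level a B k) J).ncard + 1) * ((k : ℝ) + 1) ^ (1 / 3 : ℝ) := by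
  rcases J.eq_empty_or_nonempty with rfl | hne
  · have : turns a B (level a B k) ∅ = ∅ := by
      rw [Set.eq_empty_iff_forall_notMem]
      rintro x ⟨h, _⟩
      exact h
    rw [this, Set.ncard_empty]
    simp only [Nat.cast_zero]
    positivity
  have hf := level_path (a := a) (B := B) hk J
  have hno := level_passes hS hk J
  obtain ⟨j, hj, hlev, hpsi⟩ := turns_psi hS hJ hJc hf hno hne
  have hjk := rank_le hS hk hJ hne hj hlev
  obtain ⟨h1, h2⟩ := dey (simple_sub hS _) hj
  have h3 : (turns a B (level a B k) J).ncard ≤ (psi (sub a (LF a B (level a B k) J))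
      (sub B (LF a B (level a B k) J)) j).toNat := ENat.toNat_le_toNat hpsi h1
  have h4 := lines_sq hS hJ hJc hf hno
  have h5 : ((LF a B (level a B k) J).card : ℝ) ≤ √(4 * (cross a B (level a B k) J).ncard + 1) := by
    apply Real.le_sqrt_of_sq_le
    exact_mod_cast h4
  calc ((turns a B (level a B k) J).ncard : ℝ)
      ≤ (psi (sub a (LF a B (level a B k) J)) (sub B (LF a B (level a B k) J)) j).toNat := by
        exact_mod_cast h3
    _ ≤ 29 * (LF a B (level a B k) J).card * ((j : ℝ) + 1) ^ (1 / 3 : ℝ) := h2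
    _ ≤ 29 * √(4 * (cross a B (level a B k) J).ncard + 1) * ((k : ℝ) + 1) ^ (1 / 3 : ℝ) := by
        have : ((j : ℝ) + 1) ^ (1 / 3 : ℝ) ≤ ((k : ℝ) + 1) ^ (1 / 3 : ℝ) := by
          apply Real.rpow_le_rpow (by positivity) _ (by norm_num)
          have : (j : ℝ) ≤ k := by exact_mod_cast hjk
          linarith
        gcongr

theorem const_85 (X : ℝ) (hX : 0 ≤ X) :
    29 * (5 * X) ^ (2 / 3 : ℝ) ≤ 85 * X ^ (2 / 3 : ℝ) := by
  rw [Real.mul_rpow (by norm_num) hX, ← mul_assoc]
  apply mul_le_mul_of_nonneg_right _ (by positivity)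
  have h : (5 : ℝ) ^ (2 / 3 : ℝ) ≤ 85 / 29 := by
    have h1 : (5 : ℝ) ^ (2 / 3 : ℝ) = ((5 : ℝ) ^ 2) ^ (1 / 3 : ℝ) := by
      rw [← Real.rpow_natCast, ← Real.rpow_mul (by norm_num)]
      norm_num
    rw [h1]
    calc ((5 : ℝ) ^ 2) ^ (1 / 3 : ℝ) ≤ ((85 / 29 : ℝ) ^ 3) ^ (1 / 3 : ℝ) :=
          Real.rpow_le_rpow (by norm_num) (by norm_num) (by norm_num)
      _ = 85 / 29 := by
          rw [← Real.rpow_natCast, ← Real.rpow_mul (by norm_num)]
          norm_num
  linarith

end Pool.Agent.H133.LD
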