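import Pool.Agent.H133.LD.Split

/-! The `k`-level is a path without straight passes. -/

set_option autoImplicit false

open Finset Filter
open scoped Topology

namespace Pool.Agent.H133.LD

open Pool.Agent.Results.MP_a08d0a_co.SmoothedLevel (Simple psi level level_eq exists_level)
open Pool.Agent.H189R2.Lev

variable {n : ℕ} {a B : Fin n → ℝ} {k : ℕ}

theorem level_spec (hk : k < n) (x : ℝ) : (∃ i, level a B k x = ht a B i x) ∧
    {l | ht a B l x < level a B k x}.ncard ≤ k ∧ k < {l | ht a B l x ≤ level a B k x}.ncard := by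
  obtain ⟨i, h1, h2⟩ := exists_level a B hk x
  have h3 := level_eq h1 h2
  refine ⟨⟨i, h3⟩, ?_, ?_⟩
  · rw [h3]; exact h1
  · rw [h3]; exact h2

theorem level_cont (hk : k < n) : Continuous (level a B k) := by
  rw [continuous_iff_continuousAt]
  intro x
  obtain ⟨-, h1, h2⟩ := level_spec (a := a) (B := B) hk x
  set y := level a B k x with hy
  rw [ContinuousAt, tendsto_order]
  constructor
  · intro c hc
    have h3 : ∀ᶠ z in 𝓝 x, ∀ l, y ≤ ht a B l x → c < ht a B l z := by
      rw [eventually_all]
      intro l
      by_cases h : y ≤ ht a B l x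
      · have : ∀ᶠ z in 𝓝 x, c < ht a B l z :=
          (ht_cont l).continuousAt.eventually (lt_mem_nhds (hc.trans_le h))
        filter_upwards [this] with z hz _ using hz
      · exact Eventually.of_forall fun z h' => absurd h' h
    filter_upwards [h3] with z hz
    obtain ⟨-, h4, h5⟩ := level_spec (a := a) (B := B) hk z
    by_contra hcon
    have hcon := not_lt.mp hcon
    have h6 : {l | ht a B l z ≤ level a B k z}.ncard ≤ {l | ht a B l x < y}.ncard := by
      apply Set.ncard_le_ncard _ (Set.toFinite _)
      intro l hl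
      rw [Set.mem_ofPred_eq] at hl ⊢
      by_contra h
      exact absurd (hz l (not_lt.mp h)) (not_lt.mpr (hl.trans hcon))
    omega
  · intro c hc
    have h3 : ∀ᶠ z in 𝓝 x, ∀ l, ht a B l x ≤ y → ht a B l z < c := by
      rw [eventually_all]
      intro l
      by_cases h : ht a B l x ≤ y
      · have : ∀ᶠ z in 𝓝 x, ht a B l z < c :=
          (ht_cont l).continuousAt.eventually (gt_mem_nhds (h.trans_lt hc))
        filter_upwards [this] with z hz _ using hz
      · exact Eventually.of_forall fun z h' => absurd h' h
    filter_upwards [h3] with z hz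
    obtain ⟨-, h4, h5⟩ := level_spec (a := a) (B := B) hk z
    by_contra hcon
    have hcon := not_lt.mp hcon
    have h6 : {l | ht a B l x ≤ y}.ncard ≤ {l | ht a B l z < level a B k z}.ncard := by
      apply Set.ncard_le_ncard _ (Set.toFinite _)
      intro l hl
      rw [Set.mem_ofPred_eq] at hl ⊢
      exact (hz l hl).trans_le hcon
    omega

theorem level_path (hk : k < n) (I : Set ℝ) : IsPath a B (level a B k) I :=
  ⟨(level_cont hk).continuousOn, fun x _ => (level_spec hk x).1⟩

/-- at a crossing on the level, the level turns: the rank of a line changes there -/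
theorem level_turn (hS : Simple a B) (hk : k < n) {x : ℝ} {i j : Fin n} (hij : i ≠ j)
    (hi : ht a B i x = level a B k x) (hj : ht a B j x = level a B k x)
    (h : level a B k =ᶠ[𝓝 x] ht a B i) : False := by
  classical
  have hslope : a i ≠ a j := by
    intro h1
    apply hS.1 i j hij h1
    have : ht a B i x = ht a B j x := hi.trans hj.symm
    unfold ht at this
    rw [h1] at this
    linarith
  -- the lines strictly below at `x`
  have hmeet : ht a B i x = ht a B j x := hi.trans hj.symm
  set D : Set (Fin n) := {l | ht a B l x < ht a B i x} with hD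
  have hDlt : ∀ᶠ y in 𝓝 x, ∀ l ∈ D, ht a B l y < ht a B i y := by
    have : ∀ᶠ y in 𝓝 x, ∀ l, l ∈ D → ht a B l y < ht a B i y := by
      rw [eventually_all]
      intro l
      by_cases h : l ∈ D
      · filter_upwards [(ht_cont l).continuousAt.eventually_lt (ht_cont i).continuousAt h]
          with y hy _ using hy
      · exact Eventually.of_forall fun y h' => absurd h' h
    exact this
  have hgt : ∀ᶠ y in 𝓝 x, ∀ l, l ∉ D → l ≠ i → l ≠ j → ht a B i y < ht a B l y := by
    rw [eventually_all]
    intro l
    by_cases h : l ∉ D ∧ l ≠ i ∧ l ≠ j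
    · have h1 : ht a B i x < ht a B l x := by
        refine lt_of_le_of_ne (not_lt.mp h.1) ?_
        intro h2
        exact hS.2 i j l hij h.2.1.symm h.2.2.symm ⟨x, hmeet, h2⟩
      filter_upwards [(ht_cont i).continuousAt.eventually_lt (ht_cont l).continuousAt h1]
        with y hy _ _ _ using hy
    · exact Eventually.of_forall fun y h1 h2 h3 => absurd ⟨h1, h2, h3⟩ h
  have hall : ∀ᶠ y in 𝓝 x, (level a B k y = ht a B i y) ∧ (∀ l ∈ D, ht a B l y < ht a B i y) ∧
      (∀ l, l ∉ D → l ≠ i → l ≠ j → ht a B i y < ht a B l y) := h.and (hDlt.and hgt)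
  have hjD : j ∉ D := by
    intro h1
    have h2 : ht a B j x < ht a B i x := h1
    rw [hmeet] at h2
    exact lt_irrefl _ h2
  have hiD : i ∉ D := fun h1 => lt_irrefl _ (show ht a B i x < ht a B i x from h1)
  -- a point where `j` is below `i`
  have lowc : ∀ y, level a B k y = ht a B i y → (∀ l ∈ D, ht a B l y < ht a B i y) →
      ht a B j y < ht a B i y → D.ncard + 1 ≤ k := by
    intro y h1 h2 h3
    obtain ⟨-, h4, -⟩ := level_spec (a := a) (B := B) hk y
    rw [h1] at h4
    have h5 : insert j D ⊆ {l | ht a B l y < ht a B i y} := by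
      intro l hl
      rcases hl with rfl | hl
      · exact h3
      · exact h2 l hl
    have h6 := Set.ncard_le_ncard h5 (Set.toFinite _)
    rw [Set.ncard_insert_of_notMem hjD (Set.toFinite _)] at h6
    omega
  have highc : ∀ y, level a B k y = ht a B i y →
      (∀ l, l ∉ D → l ≠ i → l ≠ j → ht a B i y < ht a B l y) →
      ht a B i y < ht a B j y → k < D.ncard + 1 := by
    intro y h1 h2 h3
    obtain ⟨-, -, h4⟩ := level_spec (a := a) (B := B) hk y
    rw [h1] at h4
    have h5 : {l | ht a B l y ≤ ht a B i y} ⊆ insert i D := by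
      intro l hl
      rw [Set.mem_ofPred_eq] at hl
      by_contra hcon
      rw [Set.mem_insert_iff, not_or] at hcon
      by_cases hlj : l = j
      · rw [hlj] at hl
        exact absurd h3 (not_lt.mpr hl)
      · exact absurd (h2 l hcon.2 hcon.1 hlj) (not_lt.mpr hl)
    have h6 := Set.ncard_le_ncard h5 (Set.toFinite _)
    rw [Set.ncard_insert_of_notMem hiD (Set.toFinite _)] at h6
    omega
  obtain ⟨y, ⟨hy1, hy2, hy3⟩, hyx⟩ := ((hall.filter_mono nhdsWithin_le_nhds).and
    (self_mem_nhdsWithin : Set.Iio x ∈ 𝓝[<] x)).exists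
  obtain ⟨z, ⟨hz1, hz2, hz3⟩, hzx⟩ := ((hall.filter_mono nhdsWithin_le_nhds).and
    (self_mem_nhdsWithin : Set.Ioi x ∈ 𝓝[>] x)).exists
  have hyx' : y < x := hyx
  have hzx' : x < z := hzx
  have hd : ∀ w, ht a B j w - ht a B i w = (a j - a i) * (w - x) := by
    intro w
    have h1 := hmeet
    unfold ht at h1 ⊢
    linarith
  rcases lt_or_gt_of_ne hslope with hlt | hlt
  · -- `a i < a j`: on the left `j` is below, on the right it is above
    have h1 : ht a B j y < ht a B i y := by
      have := hd y
      nlinarith
    have h2 : ht a B i z < ht a B j z := by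
      have := hd z
      nlinarith
    have h3 := lowc y hy1 hy2 h1
    have h4 := highc z hz1 hz3 h2
    omega
  · have h1 : ht a B i y < ht a B j y := by
      have := hd y
      nlinarith
    have h2 : ht a B j z < ht a B i z := by
      have := hd z
      nlinarith
    have h3 := lowc z hz1 hz2 h2
    have h4 := highc y hy1 hy3 h1
    omega

theorem level_passes (hS : Simple a B) (hk : k < n) (I : Set ℝ) :
    passes a B (level a B k) I = ∅ := by
  rw [Set.eq_empty_iff_forall_notMem]
  rintro x ⟨_, ⟨l, hl⟩, i, j, hij, h1, h2⟩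
  have h3 : level a B k x = ht a B l x := hl.self_of_nhds
  by_cases hli : l = i
  · subst hli
    exact level_turn hS hk hij h1 h2 hl
  · exact level_turn hS hk (i := l) (j := i) hli h3.symm h1 hl

end Pool.Agent.H133.LD
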