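import Pool.Agent.H133.LD.Path
import Pool.Agent.H133.LD.Dey

/-! The number of lines and of turns of a path without straight passes. -/

set_option autoImplicit false

open Finset Filter
open scoped Topology

namespace Pool.Agent.H133.LD

open Pool.Agent.Results.MP_a08d0a_co.SmoothedLevel (Simple psi level level_eq exists_level)
open Pool.Agent.H189R2.Lev
open Pool.Agent.Y344.KD (sub simple_sub toNat_le)

variable {n : ℕ} {a B : Fin n → ℝ} {f : ℝ → ℝ} {J : Set ℝ}

theorem cross_fin (I : Set ℝ) : (cross a B f I).Finite := Set.toFinite _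

theorem cross_mono {I I' : Set ℝ} (h : I ⊆ I') : cross a B f I ⊆ cross a B f I' := by
  rintro q ⟨h1, ⟨x, hx, h3⟩, ⟨y, hy, h4⟩, z, hz, h2⟩
  exact ⟨h1, ⟨x, h hx, h3⟩, ⟨y, h hy, h4⟩, z, h hz, h2⟩

theorem exists_generic (hS : Simple a B) (hJ : IsOpen J) {p : Fin n}
    (hp : p ∈ linesOf a B f J) : ∃ t ∈ J, t ∉ bad a B ∧ f t = ht a B p t := by
  obtain ⟨x, hx, h⟩ := hp
  have h1 : ∀ᶠ y in 𝓝[≠] x, y ∈ J := nhdsWithin_le_nhds (hJ.mem_nhds hx)
  have h2 : ∀ᶠ y in 𝓝[≠] x, f y = ht a B p y := nhdsWithin_le_nhds h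
  obtain ⟨y, hy⟩ := ((h1.and h2).and (ev_good hS x)).exists
  exact ⟨y, hy.1.1, hy.2, hy.1.2⟩

theorem exists_left (hS : Simple a B) (hJ : IsOpen J) {x : ℝ} (hx : x ∈ J) :
    ∃ y ∈ J, y < x ∧ y ∉ bad a B := by
  have h1 : ∀ᶠ y in 𝓝[<] x, y ∈ J := nhdsWithin_le_nhds (hJ.mem_nhds hx)
  have h2 : ∀ᶠ y in 𝓝[<] x, y ∉ bad a B :=
    (ev_good hS x).filter_mono (nhdsWithin_mono _ (fun y hy => ne_of_lt hy))
  obtain ⟨y, hy⟩ := ((h1.and h2).and self_mem_nhdsWithin).exists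
  exact ⟨y, hy.1.1, hy.2, hy.1.2⟩

theorem exists_right (hS : Simple a B) (hJ : IsOpen J) {x : ℝ} (hx : x ∈ J) :
    ∃ y ∈ J, x < y ∧ y ∉ bad a B := by
  have h1 : ∀ᶠ y in 𝓝[>] x, y ∈ J := nhdsWithin_le_nhds (hJ.mem_nhds hx)
  have h2 : ∀ᶠ y in 𝓝[>] x, y ∉ bad a B :=
    (ev_good hS x).filter_mono (nhdsWithin_mono _ (fun y hy => (ne_of_lt hy).symm))
  obtain ⟨y, hy⟩ := ((h1.and h2).and self_mem_nhdsWithin).exists
  exact ⟨y, hy.1.1, hy.2, hy.1.2⟩

/-- **The number of lines of a path without straight passes.** -/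
theorem lines_sq (hS : Simple a B) (hJ : IsOpen J) (hJc : J.OrdConnected)
    (hf : IsPath a B f J) (hno : passes a B f J = ∅) :
    (LF a B f J).card ^ 2 ≤ 4 * (cross a B f J).ncard + 1 := by
  classical
  set P := LF a B f J with hP
  rcases P.eq_empty_or_nonempty with h0 | hne
  · rw [h0]; simp
  obtain ⟨k, hk⟩ := exists_rank hS hJ hJc hf hno
  have hT : ∀ p : Fin n, ∃ t : ℝ, p ∈ P → t ∈ J ∧ t ∉ bad a B ∧ f t = ht a B p t := by
    intro p
    by_cases hp : p ∈ P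
    · obtain ⟨t, h1, h2, h3⟩ := exists_generic hS hJ (mem_LF.mp hp)
      exact ⟨t, fun _ => ⟨h1, h2, h3⟩⟩
    · exact ⟨0, fun h => absurd h hp⟩
  choose T hT using hT
  obtain ⟨pm, hpm, hmin⟩ := exists_min_image P T hne
  obtain ⟨pM, hpM, hmax⟩ := exists_max_image P T hne
  obtain ⟨x, hxJ, hxlt, hxb⟩ := exists_left hS hJ (hT pm hpm).1
  obtain ⟨y, hyJ, hylt, hyb⟩ := exists_right hS hJ (hT pM hpM).1
  have hxT : ∀ p ∈ P, x < T p := fun p hp => hxlt.trans_le (hmin p hp)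
  have hyT : ∀ p ∈ P, T p < y := fun p hp => (hmax p hp).trans_lt hylt
  have hxy : x < y := (hxT pm hpm).trans (hyT pm hpm)
  have hsub : Set.Ioo x y ⊆ J := fun z hz => hJc.out hxJ hyJ ⟨hz.1.le, hz.2.le⟩
  have hb : ∀ z, z ∉ bad a B → ∀ p ∈ P, ∀ q ∈ P, q ≠ p → ht a B q z ≠ ht a B p z :=
    fun z hz p _ q _ hqp h => hz ⟨q, p, hqp, h⟩
  have hmain := rank_count hxy k (hb x hxb) (hb y hyb) (P := P) (by
    intro p hp
    obtain ⟨h1, h2, h3⟩ := hT p hp
    refine ⟨T p, ⟨hxT p hp, hyT p hp⟩, hb _ h2 p hp, ?_⟩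
    have e1 : bel a B P (T p) p = lo a B f P (T p) := by
      ext q
      rw [mem_bel, mem_lo, h3]
    have e2 : hi a B f P (T p) = insert p (lo a B f P (T p)) := by
      ext q
      rw [mem_insert, mem_hi, mem_lo, h3]
      constructor
      · rintro ⟨h4, h5⟩
        by_cases hqp : q = p
        · exact Or.inl hqp
        · exact Or.inr ⟨h4, lt_of_le_of_ne h5 (hb _ h2 p hp q h4 hqp)⟩
      · rintro (rfl | h4)
        · exact ⟨hp, le_rfl⟩
        · exact ⟨h4.1, h4.2.le⟩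
    have hk' := hk (T p) h1
    rw [← hP, e2, card_insert_of_notMem] at hk'
    · rw [e1]
      omega
    · rw [mem_lo, h3]
      exact fun h => lt_irrefl _ h.2)
  have h5 : (crs a B P x y).ncard ≤ (cross a B f J).ncard := by
    apply Set.ncard_le_ncard _ (cross_fin J)
    rintro q ⟨h6, h8, h9, z, hz, h7⟩
    exact ⟨h6, mem_LF.mp h8, mem_LF.mp h9, z, hsub hz, h7⟩
  omega

theorem sub_count (R : Finset (Fin n)) (p : Fin n → Prop) [DecidablePred p] :
    {i : Fin R.card | p (R.orderEmbOfFin rfl i)}.ncard = (R.filter p).card := by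
  have h0 : ((R.filter p : Finset (Fin n)) : Set (Fin n)).ncard = (R.filter p).card :=
    Set.ncard_coe_finset _
  refine Eq.trans ?_ h0
  refine (Set.ncard_image_of_injective _ (R.orderEmbOfFin rfl).injective).symm.trans ?_
  congr 1
  ext l
  simp only [Set.mem_image, Set.mem_ofPred_eq, coe_filter]
  constructor
  · rintro ⟨i, hi, rfl⟩
    exact ⟨R.orderEmbOfFin_mem rfl i, hi⟩
  · rintro ⟨h1, h2⟩
    have h3 : l ∈ Set.range (R.orderEmbOfFin rfl) := by
      rw [Finset.range_orderEmbOfFin]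
      exact h1
    obtain ⟨i, rfl⟩ := h3
    exact ⟨i, h2, rfl⟩

theorem turns_bad (hJ : IsOpen J) (hf : IsPath a B f J) : turns a B f J ⊆ bad a B := by
  rintro x ⟨hx, h⟩
  by_contra hb
  obtain ⟨l, hl⟩ := hf.2 x hx
  exact h ⟨l, follow_good hJ hf hx hb hl⟩

theorem turns_finite (hS : Simple a B) (hJ : IsOpen J) (hf : IsPath a B f J) :
    (turns a B f J).Finite := (bad_finite hS).subset (turns_bad hJ hf)

theorem turn_cross (hS : Simple a B) (hJ : IsOpen J) (hf : IsPath a B f J)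
    (h : (turns a B f J).Nonempty) : (cross a B f J).Nonempty := by
  obtain ⟨x, hx, hturn⟩ := h
  obtain ⟨p, hp, hpx⟩ := left_line hS hJ hf hx
  obtain ⟨r, hr, hrx⟩ := right_line hS hJ hf hx
  have hpr : p ≠ r := by
    rintro rfl
    exact hturn ⟨p, glue hp hpx hr⟩
  have h1 : ht a B p x = ht a B r x := hpx.symm.trans hrx
  have hp' := mem_LF.mp (left_mem hp)
  have hr' := mem_LF.mp (right_mem hr)
  rcases lt_or_gt_of_ne hpr with h2 | h2
  · exact ⟨(p, r), h2, hp', hr', x, hx, h1⟩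
  · exact ⟨(r, p), h2, hr', hp', x, hx, h1.symm⟩

/-- the path is the level of the arrangement of its lines -/
theorem turns_psi (hS : Simple a B) (hJ : IsOpen J) (hJc : J.OrdConnected)
    (hf : IsPath a B f J) (hno : passes a B f J = ∅) (hne : J.Nonempty) :
    ∃ k < (LF a B f J).card, (∀ x ∈ J, level (sub a (LF a B f J)) (sub B (LF a B f J)) k x = f x) ∧
      (turns a B f J).encard ≤ psi (sub a (LF a B f J)) (sub B (LF a B f J)) k := by
  classical
  obtain ⟨k, hk⟩ := exists_rank hS hJ hJc hf hno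
  set P := LF a B f J with hP
  have hlev : ∀ x ∈ J, level (sub a P) (sub B P) k x = f x := by
    intro x hx
    obtain ⟨h1, h2⟩ := hk x hx
    apply level_eq
    · have e : {l | ht (sub a P) (sub B P) l x < f x}.ncard = (lo a B f P x).card := by
        have := sub_count P (fun l => ht a B l x < f x)
        unfold lo
        rw [← this]
        rfl
      rw [e]; exact h1
    · have e : {l | ht (sub a P) (sub B P) l x ≤ f x}.ncard = (hi a B f P x).card := by
        have := sub_count P (fun l => ht a B l x ≤ f x)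
        unfold hi
        rw [← this]
        rfl
      rw [e]; exact h2
  obtain ⟨x0, hx0⟩ := hne
  refine ⟨k, ?_, hlev, ?_⟩
  · have := (hk x0 hx0).2
    refine this.trans_le (card_le_card ?_)
    intro l hl
    exact (mem_hi.mp hl).1
  · apply Set.encard_le_encard
    rintro x ⟨hx, h⟩ ⟨i, hi⟩
    apply h
    refine ⟨P.orderEmbOfFin rfl i, ?_⟩
    filter_upwards [hi, hJ.mem_nhds hx] with y hy hyJ
    rw [← hlev y hyJ, hy]
    rfl

/-- a bound for all levels of all simple arrangements -/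
def Bound (A γ : ℝ) : Prop :=
  ∀ (m : ℕ) (a' B' : Fin m → ℝ), Simple a' B' → ∀ k < m,
    psi a' B' k ≠ ⊤ ∧ ((psi a' B' k).toNat : ℝ) ≤ A * (m : ℝ) ^ (2 * γ)

theorem bound_dey : Bound 29 (2 / 3) := by
  intro m a' B' hS k hk
  obtain ⟨h1, h2⟩ := dey hS hk
  refine ⟨h1, h2.trans ?_⟩
  have hm : (1 : ℝ) ≤ m := by exact_mod_cast (by omega : 1 ≤ m)
  have h3 : ((k : ℝ) + 1) ^ (1 / 3 : ℝ) ≤ (m : ℝ) ^ (1 / 3 : ℝ) := by
    apply Real.rpow_le_rpow (by positivity) _ (by norm_num)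
    exact_mod_cast hk
  have h4 : (m : ℝ) ^ (2 * (2 / 3) : ℝ) = m * (m : ℝ) ^ (1 / 3 : ℝ) := by
    rw [show (2 * (2 / 3) : ℝ) = 1 + 1 / 3 by norm_num, Real.rpow_add (by linarith), Real.rpow_one]
  rw [h4, mul_assoc]
  gcongr

/-- **local bound, relative form** -/
theorem local_bound {A γ : ℝ} (hA : 0 ≤ A) (hγ : 0 ≤ γ) (hB : Bound A γ)
    (hS : Simple a B) (hJ : IsOpen J) (hJc : J.OrdConnected)
    (hf : IsPath a B f J) (hno : passes a B f J = ∅) :
    ((turns a B f J).ncard : ℝ) ≤ A * (5 * (cross a B f J).ncard) ^ γ := by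
  rcases (turns a B f J).eq_empty_or_nonempty with h0 | hne
  · rw [h0]
    simp only [Set.ncard_empty, Nat.cast_zero]
    positivity
  have hX : 1 ≤ (cross a B f J).ncard :=
    (Set.ncard_pos (cross_fin J)).mpr (turn_cross hS hJ hf hne)
  have hJne : J.Nonempty := by
    obtain ⟨x, hx⟩ := hne
    exact ⟨x, hx.1⟩
  obtain ⟨k, hk, -, h1⟩ := turns_psi hS hJ hJc hf hno hJne
  obtain ⟨h2, h3⟩ := hB _ _ _ (simple_sub hS (LF a B f J)) k hk
  have h4 : (turns a B f J).ncard ≤ (psi (sub a (LF a B f J)) (sub B (LF a B f J)) k).toNat :=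
    ENat.toNat_le_toNat h1 h2
  have h5 := lines_sq hS hJ hJc hf hno
  have h6 : (((LF a B f J).card : ℝ)) ^ (2 * γ) ≤ (5 * (cross a B f J).ncard) ^ γ := by
    rw [Real.rpow_mul (by positivity), Real.rpow_ofNat]
    apply Real.rpow_le_rpow (by positivity) _ hγ
    have h7 : (((LF a B f J).card : ℝ)) ^ 2 ≤ 4 * (cross a B f J).ncard + 1 := by exact_mod_cast h5
    have h8 : (1 : ℝ) ≤ (cross a B f J).ncard := by exact_mod_cast hX
    linarith
  calc ((turns a B f J).ncard : ℝ)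
      ≤ (psi (sub a (LF a B f J)) (sub B (LF a B f J)) k).toNat := by exact_mod_cast h4
    _ ≤ A * (((LF a B f J).card : ℝ)) ^ (2 * γ) := h3
    _ ≤ _ := mul_le_mul_of_nonneg_left h6 hA

end Pool.Agent.H133.LD
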