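import Pool.Agent.H133.LD.Count
import Pool.Graph.R_seed8.Results.MP_a08d0a_co.SmoothedLevel

/-! Paths in arrangements of lines: local structure, and the rank of a path which never passes
straight through a crossing. -/

set_option autoImplicit false

open Finset Filter
open scoped Topology

namespace Pool.Agent.H133.LD

open Pool.Agent.Results.MP_a08d0a_co.SmoothedLevel (Simple psi level level_eq exists_level)
open Pool.Agent.H189R2.Lev

variable {n : ℕ}

/-- `f` is, above the set `I`, an `x`-monotone path in the arrangement: it is continuous on `I` and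
its graph over `I` is contained in the union of the lines -/
def IsPath (a B : Fin n → ℝ) (f : ℝ → ℝ) (I : Set ℝ) : Prop :=
  ContinuousOn f I ∧ ∀ x ∈ I, ∃ l, f x = ht a B l x

/-- the lines that the path `f` follows somewhere above `I` -/
def linesOf (a B : Fin n → ℝ) (f : ℝ → ℝ) (I : Set ℝ) : Set (Fin n) :=
  {l | ∃ x ∈ I, f =ᶠ[𝓝 x] ht a B l}

/-- the turns of the path `f` above `I`: the abscissae near which it does not follow a single
line -/
def turns (a B : Fin n → ℝ) (f : ℝ → ℝ) (I : Set ℝ) : Set ℝ :=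
  {x ∈ I | ¬ ∃ l, f =ᶠ[𝓝 x] ht a B l}

/-- the straight passes of the path `f` above `I`: the abscissae near which it follows a single
line, and where it goes through a crossing of two lines -/
def passes (a B : Fin n → ℝ) (f : ℝ → ℝ) (I : Set ℝ) : Set ℝ :=
  {x ∈ I | (∃ l, f =ᶠ[𝓝 x] ht a B l) ∧ ∃ i j, i ≠ j ∧ ht a B i x = f x ∧ ht a B j x = f x}

/-- the pairs `i < j` of lines which the path `f` follows somewhere above `I` and which cross
above `I` -/
def cross (a B : Fin n → ℝ) (f : ℝ → ℝ) (I : Set ℝ) : Set (Fin n × Fin n) :=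
  {q | q.1 < q.2 ∧ q.1 ∈ linesOf a B f I ∧ q.2 ∈ linesOf a B f I ∧
    ∃ z ∈ I, ht a B q.1 z = ht a B q.2 z}

variable {a B : Fin n → ℝ}

theorem ht_cont (l : Fin n) : Continuous (ht a B l) := by
  unfold ht
  fun_prop

theorem meet_unique (hS : Simple a B) {i j : Fin n} (hij : i ≠ j) {x y : ℝ}
    (hx : ht a B i x = ht a B j x) (hy : ht a B i y = ht a B j y) : x = y := by
  unfold ht at hx hy
  by_cases ha : a i = a j
  · exfalso
    apply hS.1 i j hij ha
    rw [ha] at hx
    linarith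
  · have h : (a i - a j) * (x - y) = 0 := by linarith
    rcases mul_eq_zero.mp h with h | h
    · exact absurd (sub_eq_zero.mp h) ha
    · linarith

/-- the abscissae of the crossings -/
def bad (a B : Fin n → ℝ) : Set ℝ := {x | ∃ i j, i ≠ j ∧ ht a B i x = ht a B j x}

theorem bad_finite (hS : Simple a B) : (bad a B).Finite := by
  have : bad a B ⊆ ⋃ i, ⋃ j, {x | i ≠ j ∧ ht a B i x = ht a B j x} := by
    rintro x ⟨i, j, h⟩
    simp only [Set.mem_iUnion]
    exact ⟨i, j, h⟩
  refine (Set.finite_iUnion fun i => Set.finite_iUnion fun j => ?_).subset this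
  apply Set.Subsingleton.finite
  rintro x ⟨h1, h2⟩ y ⟨_, h3⟩
  exact meet_unique hS h1 h2 h3

theorem ev_good (hS : Simple a B) (x : ℝ) : ∀ᶠ y in 𝓝[≠] x, y ∉ bad a B := by
  have h : (bad a B \ {x})ᶜ ∈ 𝓝 x := by
    apply IsOpen.mem_nhds
    · exact ((bad_finite hS).subset Set.sdiff_subset).isClosed.isOpen_compl
    · simp
  have h1 : ∀ᶠ y in 𝓝[≠] x, y ∈ (bad a B \ {x})ᶜ := nhdsWithin_le_nhds h
  have h2 : ∀ᶠ y in 𝓝[≠] x, y ∈ ({x}ᶜ : Set ℝ) := self_mem_nhdsWithin
  filter_upwards [h1, h2] with y hy hy2 hb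
  exact hy ⟨hb, hy2⟩

section path

variable {f : ℝ → ℝ} {J : Set ℝ}

/-- if only one line goes through the point of the path, the path follows it nearby -/
theorem follow (hJ : IsOpen J) (hf : IsPath a B f J) {x : ℝ} (hx : x ∈ J) {l : Fin n}
    (h : ∀ q, q ≠ l → ht a B q x ≠ f x) : f =ᶠ[𝓝 x] ht a B l := by
  have hc : ContinuousAt f x := hf.1.continuousAt (hJ.mem_nhds hx)
  have h1 : ∀ᶠ y in 𝓝 x, ∀ q, q ≠ l → ht a B q y ≠ f y := by
    rw [eventually_all]
    intro q
    by_cases hq : q = l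
    · exact Eventually.of_forall fun y h => absurd hq h
    · have : ∀ᶠ y in 𝓝 x, ht a B q y ≠ f y :=
        (ContinuousAt.ne_iff_eventually_ne (ht_cont q).continuousAt hc).mp (h q hq)
      filter_upwards [this] with y hy _ using hy
  filter_upwards [h1, hJ.mem_nhds hx] with y hy hyJ
  obtain ⟨p, hp⟩ := hf.2 y hyJ
  by_cases hpl : p = l
  · rw [← hpl]; exact hp
  · exact absurd hp.symm (hy p hpl)

theorem follow_good (hJ : IsOpen J) (hf : IsPath a B f J) {x : ℝ} (hx : x ∈ J)
    (hb : x ∉ bad a B) {l : Fin n} (hl : f x = ht a B l x) : f =ᶠ[𝓝 x] ht a B l := by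
  apply follow hJ hf hx
  intro q hq h
  exact hb ⟨q, l, hq, h.trans hl⟩

/-- the path follows one line on an interval without crossings -/
theorem const_on (hJ : IsOpen J) (hf : IsPath a B f J) {K : Set ℝ} (hK : K.OrdConnected)
    (hKJ : K ⊆ J) (hKb : ∀ x ∈ K, x ∉ bad a B) (hne : K.Nonempty) :
    ∃ l, ∀ x ∈ K, f =ᶠ[𝓝 x] ht a B l := by
  classical
  have hL : ∀ x : ℝ, ∃ l : Fin n, x ∈ K → f x = ht a B l x := by
    intro x
    obtain ⟨x0, hx0⟩ := hne
    by_cases h : x ∈ K
    · obtain ⟨l, hl⟩ := hf.2 x (hKJ h)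
      exact ⟨l, fun _ => hl⟩
    · obtain ⟨l, hl⟩ := hf.2 x0 (hKJ hx0)
      exact ⟨l, fun h' => absurd h' h⟩
  choose L hL using hL
  have hpre : IsPreconnected K := hK.isPreconnected
  have hcont : ContinuousOn L K := by
    intro x hx
    have h1 := follow_good hJ hf (hKJ hx) (hKb x hx) (hL x hx)
    have h2 : ∀ᶠ y in 𝓝[K] x, L y = L x := by
      filter_upwards [nhdsWithin_le_nhds h1, self_mem_nhdsWithin] with y hy hyK
      by_contra hne'
      exact hKb y hyK ⟨L y, L x, hne', (hL y hyK).symm.trans hy⟩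
    exact (continuousWithinAt_const (b := L x)).congr_of_eventuallyEq h2 rfl
  obtain ⟨x0, hx0⟩ := hne
  refine ⟨L x0, fun x hx => ?_⟩
  rw [hpre.constant hcont hx0 hx]
  exact follow_good hJ hf (hKJ hx) (hKb x hx) (hL x hx)

theorem left_line (hS : Simple a B) (hJ : IsOpen J) (hf : IsPath a B f J) {x : ℝ} (hx : x ∈ J) :
    ∃ p, (∀ᶠ y in 𝓝[<] x, y ∈ J ∧ f =ᶠ[𝓝 y] ht a B p) ∧ f x = ht a B p x := by
  have h1 : ∀ᶠ y in 𝓝[<] x, y ∈ J ∧ y ∉ bad a B := by
    have e1 : ∀ᶠ y in 𝓝[<] x, y ∈ J := nhdsWithin_le_nhds (hJ.mem_nhds hx)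
    have e2 : ∀ᶠ y in 𝓝[<] x, y ∉ bad a B :=
      (ev_good hS x).filter_mono (nhdsWithin_mono _ (fun y hy => ne_of_lt hy))
    exact e1.and e2
  obtain ⟨u, hu, hI⟩ := (mem_nhdsLT_iff_exists_Ioo_subset).mp h1
  have hu' : u < x := hu
  obtain ⟨p, hp⟩ := const_on hJ hf (K := Set.Ioo u x) Set.ordConnected_Ioo
    (fun y hy => (hI hy).1) (fun y hy => (hI hy).2) (Set.nonempty_Ioo.mpr hu')
  have hev : ∀ᶠ y in 𝓝[<] x, y ∈ J ∧ f =ᶠ[𝓝 y] ht a B p := by
    filter_upwards [Ioo_mem_nhdsLT hu'] with y hy using ⟨(hI hy).1, hp y hy⟩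
  refine ⟨p, hev, ?_⟩
  have hc : ContinuousAt f x := hf.1.continuousAt (hJ.mem_nhds hx)
  have t1 : Tendsto f (𝓝[<] x) (𝓝 (f x)) := hc.tendsto.mono_left nhdsWithin_le_nhds
  have t2 : Tendsto (ht a B p) (𝓝[<] x) (𝓝 (ht a B p x)) :=
    (ht_cont p).continuousAt.tendsto.mono_left nhdsWithin_le_nhds
  have t3 : Tendsto f (𝓝[<] x) (𝓝 (ht a B p x)) := by
    apply t2.congr'
    filter_upwards [hev] with y hy using hy.2.self_of_nhds.symm
  exact tendsto_nhds_unique t1 t3

theorem right_line (hS : Simple a B) (hJ : IsOpen J) (hf : IsPath a B f J) {x : ℝ} (hx : x ∈ J) :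
    ∃ p, (∀ᶠ y in 𝓝[>] x, y ∈ J ∧ f =ᶠ[𝓝 y] ht a B p) ∧ f x = ht a B p x := by
  have h1 : ∀ᶠ y in 𝓝[>] x, y ∈ J ∧ y ∉ bad a B := by
    have e1 : ∀ᶠ y in 𝓝[>] x, y ∈ J := nhdsWithin_le_nhds (hJ.mem_nhds hx)
    have e2 : ∀ᶠ y in 𝓝[>] x, y ∉ bad a B :=
      (ev_good hS x).filter_mono (nhdsWithin_mono _ (fun y hy => (ne_of_lt hy).symm))
    exact e1.and e2
  obtain ⟨u, hu, hI⟩ := (mem_nhdsGT_iff_exists_Ioo_subset).mp h1
  have hu' : x < u := hu
  obtain ⟨p, hp⟩ := const_on hJ hf (K := Set.Ioo x u) Set.ordConnected_Ioo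
    (fun y hy => (hI hy).1) (fun y hy => (hI hy).2) (Set.nonempty_Ioo.mpr hu')
  have hev : ∀ᶠ y in 𝓝[>] x, y ∈ J ∧ f =ᶠ[𝓝 y] ht a B p := by
    filter_upwards [Ioo_mem_nhdsGT hu'] with y hy using ⟨(hI hy).1, hp y hy⟩
  refine ⟨p, hev, ?_⟩
  have hc : ContinuousAt f x := hf.1.continuousAt (hJ.mem_nhds hx)
  have t1 : Tendsto f (𝓝[>] x) (𝓝 (f x)) := hc.tendsto.mono_left nhdsWithin_le_nhds
  have t2 : Tendsto (ht a B p) (𝓝[>] x) (𝓝 (ht a B p x)) :=
    (ht_cont p).continuousAt.tendsto.mono_left nhdsWithin_le_nhds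
  have t3 : Tendsto f (𝓝[>] x) (𝓝 (ht a B p x)) := by
    apply t2.congr'
    filter_upwards [hev] with y hy using hy.2.self_of_nhds.symm
  exact tendsto_nhds_unique t1 t3

/-- if the left line is the right line, the path follows it nearby -/
theorem glue {x : ℝ} {p : Fin n}
    (hp : ∀ᶠ y in 𝓝[<] x, y ∈ J ∧ f =ᶠ[𝓝 y] ht a B p) (hpx : f x = ht a B p x)
    (hr : ∀ᶠ y in 𝓝[>] x, y ∈ J ∧ f =ᶠ[𝓝 y] ht a B p) : f =ᶠ[𝓝 x] ht a B p := by
  have e1 : ∀ᶠ y in 𝓝[≠] x, f y = ht a B p y := by
    rw [← nhdsLT_sup_nhdsGT, eventually_sup]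
    exact ⟨hp.mono fun y hy => hy.2.self_of_nhds, hr.mono fun y hy => hy.2.self_of_nhds⟩
  rw [eventually_nhdsWithin_iff] at e1
  filter_upwards [e1] with y hy
  by_cases hyx : y = x
  · rw [hyx]; exact hpx
  · exact hy hyx

/-- the left line and the right line, and no further line, go through a point of the path which is
not a straight pass -/
theorem two_lines (hS : Simple a B) {x : ℝ} (hx : x ∈ J)
    (hno : passes a B f J = ∅) {p r : Fin n}
    (hp : ∀ᶠ y in 𝓝[<] x, y ∈ J ∧ f =ᶠ[𝓝 y] ht a B p) (hpx : f x = ht a B p x)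
    (hr : ∀ᶠ y in 𝓝[>] x, y ∈ J ∧ f =ᶠ[𝓝 y] ht a B r) (hrx : f x = ht a B r x)
    {q : Fin n} (hq : ht a B q x = f x) : q = p ∨ q = r := by
  by_contra hcon
  push Not at hcon
  by_cases hpr : p = r
  · subst hpr
    have h1 : f =ᶠ[𝓝 x] ht a B p := glue hp hpx hr
    have : x ∈ passes a B f J := ⟨hx, ⟨p, h1⟩, q, p, hcon.1, hq, hpx.symm⟩
    rw [hno] at this
    exact this
  · exact hS.2 q p r hcon.1 hcon.2 hpr ⟨x, hq.trans hpx, hq.trans hrx⟩

/-- the lines of the path as a finite set -/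
noncomputable def LF (a B : Fin n → ℝ) (f : ℝ → ℝ) (J : Set ℝ) : Finset (Fin n) :=
  by classical exact univ.filter (fun l => l ∈ linesOf a B f J)

theorem mem_LF {l : Fin n} : l ∈ LF a B f J ↔ l ∈ linesOf a B f J := by
  unfold LF; simp

theorem LF_card : (LF a B f J).card = (linesOf a B f J).ncard := by
  rw [← Set.ncard_coe_finset]
  congr 1
  ext l
  rw [mem_coe, mem_LF]

theorem left_mem {x : ℝ} {p : Fin n}
    (hp : ∀ᶠ y in 𝓝[<] x, y ∈ J ∧ f =ᶠ[𝓝 y] ht a B p) : p ∈ LF a B f J := by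
  obtain ⟨y, hy⟩ := hp.exists
  rw [mem_LF]
  exact ⟨y, hy⟩

theorem right_mem {x : ℝ} {p : Fin n}
    (hp : ∀ᶠ y in 𝓝[>] x, y ∈ J ∧ f =ᶠ[𝓝 y] ht a B p) : p ∈ LF a B f J := by
  obtain ⟨y, hy⟩ := hp.exists
  rw [mem_LF]
  exact ⟨y, hy⟩

/-- the lines of `P` below the path -/
noncomputable def lo (a B : Fin n → ℝ) (f : ℝ → ℝ) (P : Finset (Fin n)) (x : ℝ) :
    Finset (Fin n) := by
  classical exact P.filter (fun l => ht a B l x < f x)

/-- the lines of `P` weakly below the path -/
noncomputable def hi (a B : Fin n → ℝ) (f : ℝ → ℝ) (P : Finset (Fin n)) (x : ℝ) :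
    Finset (Fin n) := by
  classical exact P.filter (fun l => ht a B l x ≤ f x)

theorem mem_lo {P : Finset (Fin n)} {x : ℝ} {l : Fin n} :
    l ∈ lo a B f P x ↔ l ∈ P ∧ ht a B l x < f x := by
  unfold lo; simp

theorem mem_hi {P : Finset (Fin n)} {x : ℝ} {l : Fin n} :
    l ∈ hi a B f P x ↔ l ∈ P ∧ ht a B l x ≤ f x := by
  unfold hi; simp

/-- comparison of the lines with the path, left and right of a point -/
theorem local_rank (hS : Simple a B) (hJ : IsOpen J) (hf : IsPath a B f J)
    (hno : passes a B f J = ∅) {x : ℝ} (hx : x ∈ J) :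
    ∃ k : ℕ, (∀ᶠ y in 𝓝[≠] x, (lo a B f (LF a B f J) y).card = k) ∧
      (lo a B f (LF a B f J) x).card ≤ k ∧ k < (hi a B f (LF a B f J) x).card := by
  classical
  set P := LF a B f J with hP
  obtain ⟨p, hp, hpx⟩ := left_line hS hJ hf hx
  obtain ⟨r, hr, hrx⟩ := right_line hS hJ hf hx
  have hpP : p ∈ P := left_mem hp
  have hrP : r ∈ P := right_mem hr
  have htwo : ∀ q, ht a B q x = f x → q = p ∨ q = r :=
    fun q hq => two_lines hS hx hno hp hpx hr hrx hq
  have hc : ContinuousAt f x := hf.1.continuousAt (hJ.mem_nhds hx)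
  have hlt : ∀ᶠ y in 𝓝 x, ∀ l, ht a B l x < f x → ht a B l y < f y := by
    rw [eventually_all]
    intro l
    by_cases h : ht a B l x < f x
    · filter_upwards [(ht_cont l).continuousAt.eventually_lt hc h] with y hy _ using hy
    · exact Eventually.of_forall fun y h' => absurd h' h
  have hgt : ∀ᶠ y in 𝓝 x, ∀ l, f x < ht a B l x → f y < ht a B l y := by
    rw [eventually_all]
    intro l
    by_cases h : f x < ht a B l x
    · filter_upwards [hc.eventually_lt (ht_cont l).continuousAt h] with y hy _ using hy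
    · exact Eventually.of_forall fun y h' => absurd h' h
  have eprx : ht a B p x = ht a B r x := hpx.symm.trans hrx
  -- left
  have hleft : ∀ᶠ y in 𝓝[<] x, lo a B f P y =
      if a p < a r then insert r (lo a B f P x) else lo a B f P x := by
    filter_upwards [hp, nhdsWithin_le_nhds hlt, nhdsWithin_le_nhds hgt,
      self_mem_nhdsWithin] with y hy h1 h2 hyx
    have hyx' : y < x := hyx
    have hfy : f y = ht a B p y := hy.2.self_of_nhds
    have hcmp : ht a B r y < ht a B p y ↔ a p < a r := by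
      unfold ht at eprx ⊢
      constructor
      · intro h
        by_contra h3
        have h3 := not_lt.mp h3
        nlinarith
      · intro h
        nlinarith
    have key : ∀ l, ht a B l y < f y ↔ ht a B l x < f x ∨ (a p < a r ∧ l = r) := by
      intro l
      rcases lt_trichotomy (ht a B l x) (f x) with h | h | h
      · exact iff_of_true (h1 l h) (Or.inl h)
      · rcases htwo l h with rfl | rfl
        · rw [hfy]
          refine iff_of_false (lt_irrefl _) ?_
          rintro (h3 | ⟨h3, rfl⟩)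
          · exact absurd h3 (by rw [h]; exact lt_irrefl _)
          · exact lt_irrefl _ h3
        · rw [hfy, hcmp]
          constructor
          · intro h3
            exact Or.inr ⟨h3, rfl⟩
          · rintro (h3 | h3)
            · exact absurd h3 (by rw [h]; exact lt_irrefl _)
            · exact h3.1
      · refine iff_of_false (not_lt.mpr (h2 l h).le) ?_
        rintro (h3 | ⟨_, rfl⟩)
        · exact absurd h3 (not_lt.mpr h.le)
        · exact absurd hrx (ne_of_lt h)
    ext l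
    split_ifs with hpr
    · rw [mem_insert, mem_lo, mem_lo, key l]
      constructor
      · rintro ⟨h3, h4 | h4⟩
        · exact Or.inr ⟨h3, h4⟩
        · exact Or.inl h4.2
      · rintro (rfl | ⟨h3, h4⟩)
        · exact ⟨hrP, Or.inr ⟨hpr, rfl⟩⟩
        · exact ⟨h3, Or.inl h4⟩
    · rw [mem_lo, mem_lo, key l]
      constructor
      · rintro ⟨h3, h4 | h4⟩
        · exact ⟨h3, h4⟩
        · exact absurd h4.1 hpr
      · rintro ⟨h3, h4⟩
        exact ⟨h3, Or.inl h4⟩
  -- right
  have hright : ∀ᶠ y in 𝓝[>] x, lo a B f P y =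
      if a p < a r then insert p (lo a B f P x) else lo a B f P x := by
    filter_upwards [hr, nhdsWithin_le_nhds hlt, nhdsWithin_le_nhds hgt,
      self_mem_nhdsWithin] with y hy h1 h2 hyx
    have hyx' : x < y := hyx
    have hfy : f y = ht a B r y := hy.2.self_of_nhds
    have hcmp : ht a B p y < ht a B r y ↔ a p < a r := by
      unfold ht at eprx ⊢
      constructor
      · intro h
        by_contra h3
        have h3 := not_lt.mp h3
        nlinarith
      · intro h
        nlinarith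
    have key : ∀ l, ht a B l y < f y ↔ ht a B l x < f x ∨ (a p < a r ∧ l = p) := by
      intro l
      rcases lt_trichotomy (ht a B l x) (f x) with h | h | h
      · exact iff_of_true (h1 l h) (Or.inl h)
      · rcases htwo l h with rfl | rfl
        · rw [hfy, hcmp]
          constructor
          · intro h3
            exact Or.inr ⟨h3, rfl⟩
          · rintro (h3 | h3)
            · exact absurd h3 (by rw [h]; exact lt_irrefl _)
            · exact h3.1
        · rw [hfy]
          refine iff_of_false (lt_irrefl _) ?_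
          rintro (h3 | ⟨h3, rfl⟩)
          · exact absurd h3 (by rw [h]; exact lt_irrefl _)
          · exact lt_irrefl _ h3
      · refine iff_of_false (not_lt.mpr (h2 l h).le) ?_
        rintro (h3 | ⟨_, rfl⟩)
        · exact absurd h3 (not_lt.mpr h.le)
        · exact absurd hpx (ne_of_lt h)
    ext l
    split_ifs with hpr
    · rw [mem_insert, mem_lo, mem_lo, key l]
      constructor
      · rintro ⟨h3, h4 | h4⟩
        · exact Or.inr ⟨h3, h4⟩
        · exact Or.inl h4.2
      · rintro (rfl | ⟨h3, h4⟩)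
        · exact ⟨hpP, Or.inr ⟨hpr, rfl⟩⟩
        · exact ⟨h3, Or.inl h4⟩
    · rw [mem_lo, mem_lo, key l]
      constructor
      · rintro ⟨h3, h4 | h4⟩
        · exact ⟨h3, h4⟩
        · exact absurd h4.1 hpr
      · rintro ⟨h3, h4⟩
        exact ⟨h3, Or.inl h4⟩
  have hrlo : r ∉ lo a B f P x := by
    rw [mem_lo]
    rintro ⟨_, h⟩
    exact absurd hrx (ne_of_gt h)
  have hplo : p ∉ lo a B f P x := by
    rw [mem_lo]
    rintro ⟨_, h⟩
    exact absurd hpx (ne_of_gt h)
  have hphi : p ∈ hi a B f P x := mem_hi.mpr ⟨hpP, hpx.ge⟩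
  have hrhi : r ∈ hi a B f P x := mem_hi.mpr ⟨hrP, hrx.ge⟩
  have hlohi : lo a B f P x ⊆ hi a B f P x := by
    intro l hl
    rw [mem_lo] at hl
    exact mem_hi.mpr ⟨hl.1, hl.2.le⟩
  refine ⟨if a p < a r then (lo a B f P x).card + 1 else (lo a B f P x).card, ?_, ?_, ?_⟩
  · rw [← nhdsLT_sup_nhdsGT, eventually_sup]
    constructor
    · filter_upwards [hleft] with y hy
      rw [hy]
      split_ifs
      · rw [card_insert_of_notMem hrlo]
      · rfl
    · filter_upwards [hright] with y hy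
      rw [hy]
      split_ifs
      · rw [card_insert_of_notMem hplo]
      · rfl
  · split_ifs <;> omega
  · split_ifs with hpr
    · have hne : p ≠ r := by
        rintro rfl
        exact lt_irrefl _ hpr
      have h1 : insert p (insert r (lo a B f P x)) ⊆ hi a B f P x := by
        intro l hl
        rw [mem_insert, mem_insert] at hl
        rcases hl with rfl | rfl | hl
        · exact hphi
        · exact hrhi
        · exact hlohi hl
      have h2 := card_le_card h1
      rw [card_insert_of_notMem, card_insert_of_notMem hrlo] at h2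
      · omega
      · rw [mem_insert]
        rintro (h | h)
        · exact hne h
        · exact hplo h
    · have h1 : insert p (lo a B f P x) ⊆ hi a B f P x := by
        intro l hl
        rw [mem_insert] at hl
        rcases hl with rfl | hl
        · exact hphi
        · exact hlohi hl
      have h2 := card_le_card h1
      rw [card_insert_of_notMem hplo] at h2
      omega

/-- **A path without straight passes is a level of the arrangement of its lines.** -/
theorem exists_rank (hS : Simple a B) (hJ : IsOpen J) (hJc : J.OrdConnected)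
    (hf : IsPath a B f J) (hno : passes a B f J = ∅) :
    ∃ k : ℕ, ∀ x ∈ J, (lo a B f (LF a B f J) x).card ≤ k ∧
      k < (hi a B f (LF a B f J) x).card := by
  classical
  rcases J.eq_empty_or_nonempty with rfl | ⟨x0, hx0⟩
  · exact ⟨0, fun x hx => absurd hx (Set.notMem_empty _)⟩
  have h : ∀ x : ℝ, ∃ k : ℕ, x ∈ J →
      ((∀ᶠ y in 𝓝[≠] x, (lo a B f (LF a B f J) y).card = k) ∧
      (lo a B f (LF a B f J) x).card ≤ k ∧ k < (hi a B f (LF a B f J) x).card) := by
    intro x
    by_cases hx : x ∈ J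
    · obtain ⟨k, hk⟩ := local_rank hS hJ hf hno hx
      exact ⟨k, fun _ => hk⟩
    · exact ⟨0, fun h => absurd h hx⟩
  choose κ hκ using h
  have hcont : ContinuousOn κ J := by
    intro x hx
    have h1 := (hκ x hx).1
    have h2 : ∀ᶠ y in 𝓝[≠] x, ∀ᶠ z in 𝓝[≠] y, (lo a B f (LF a B f J) z).card = κ x := by
      rw [eventually_nhdsWithin_iff] at h1
      rw [eventually_nhdsWithin_iff]
      filter_upwards [h1.eventually_nhds] with y hy hyx
      rw [eventually_nhdsWithin_iff]
      have h3 : ∀ᶠ z in 𝓝 y, z ∈ ({x}ᶜ : Set ℝ) := isOpen_compl_singleton.mem_nhds hyx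
      filter_upwards [hy, h3] with z hz hz2 _
      exact hz hz2
    have h4 : ∀ᶠ y in 𝓝[J] x, κ y = κ x := by
      rw [eventually_nhdsWithin_iff] at h2 ⊢
      filter_upwards [h2] with y hy hyJ
      by_cases hyx : y = x
      · rw [hyx]
      · have h5 := hy hyx
        obtain ⟨z, hz1, hz2⟩ := (h5.and (hκ y hyJ).1).exists
        rw [← hz1, ← hz2]
    exact (continuousWithinAt_const (b := κ x)).congr_of_eventuallyEq h4 rfl
  refine ⟨κ x0, fun x hx => ?_⟩
  rw [hJc.isPreconnected.constant hcont hx0 hx]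
  exact (hκ x hx).2

end path

end Pool.Agent.H133.LD
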