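import Pool.Agent.H133.LD.Lev

/-! Sharpness of the bound for the number of the lines on a level. -/

set_option autoImplicit false

open Finset Filter
open scoped Topology

namespace Pool.Agent.H133.LD

open Pool.Agent.Results.MP_a08d0a_co.SmoothedLevel (Simple psi level level_eq exists_level)
open Pool.Agent.H189R2.Lev

/-- slopes: `m + 1` lines of slope `1`, `m` lines of slope `-1` -/
noncomputable def sa (m : ℕ) (i : Fin (2 * m + 1)) : ℝ := if (i : ℕ) ≤ m then 1 else -1

/-- intercepts: `0, 2, …, 2 m` and `1, 3, …, 2 m - 1` -/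
noncomputable def sB (m : ℕ) (i : Fin (2 * m + 1)) : ℝ :=
  if (i : ℕ) ≤ m then 2 * ((i : ℕ) : ℝ) else 2 * (((i : ℕ) : ℝ) - m - 1) + 1

theorem ht_up {m : ℕ} {i : Fin (2 * m + 1)} (h : (i : ℕ) ≤ m) (x : ℝ) :
    ht (sa m) (sB m) i x = x + 2 * ((i : ℕ) : ℝ) := by
  unfold ht sa sB
  rw [if_pos h, if_pos h]
  ring

theorem ht_dn {m : ℕ} {i : Fin (2 * m + 1)} (h : ¬ (i : ℕ) ≤ m) (x : ℝ) :
    ht (sa m) (sB m) i x = -x + 2 * (((i : ℕ) : ℝ) - m) - 1 := by
  unfold ht sa sB
  rw [if_neg h, if_neg h]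
  ring

theorem same_ne {m : ℕ} {i j : Fin (2 * m + 1)} (hij : i ≠ j)
    (h : ((i : ℕ) ≤ m ↔ (j : ℕ) ≤ m)) (x : ℝ) :
    ht (sa m) (sB m) i x ≠ ht (sa m) (sB m) j x := by
  have hne : ((i : ℕ) : ℝ) ≠ ((j : ℕ) : ℝ) := by
    intro h1
    apply hij
    ext
    exact_mod_cast h1
  intro h2
  apply hne
  by_cases hi : (i : ℕ) ≤ m
  · rw [ht_up hi, ht_up (h.mp hi)] at h2
    linarith
  · rw [ht_dn hi, ht_dn (fun hj => hi (h.mpr hj))] at h2
    linarith

theorem simple_s (m : ℕ) : Simple (sa m) (sB m) := by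
  constructor
  · intro i j hij ha hB
    have h : ((i : ℕ) ≤ m ↔ (j : ℕ) ≤ m) := by
      unfold sa at ha
      split_ifs at ha with h1 h2 h2
      · exact iff_of_true h1 h2
      · norm_num at ha
      · norm_num at ha
      · exact iff_of_false h1 h2
    apply same_ne hij h 0
    unfold ht
    rw [ha, hB]
  · rintro i j l hij hil hjl ⟨x, h1, h2⟩
    by_cases hi : (i : ℕ) ≤ m <;> by_cases hj : (j : ℕ) ≤ m <;> by_cases hl : (l : ℕ) ≤ m
    · exact same_ne hij (by tauto) x h1
    · exact same_ne hij (by tauto) x h1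
    · exact same_ne hil (by tauto) x h2
    · exact same_ne hjl (by tauto) x (h1.symm.trans h2)
    · exact same_ne hjl (by tauto) x (h1.symm.trans h2)
    · exact same_ne hil (by tauto) x h2
    · exact same_ne hij (by tauto) x h1
    · exact same_ne hij (by tauto) x h1

theorem count_s (m u v : ℕ) (hu : u ≤ m + 1) (hv : v ≤ m) :
    {l : Fin (2 * m + 1) | (l : ℕ) < u ∨ (m + 1 ≤ (l : ℕ) ∧ (l : ℕ) < m + 1 + v)}.ncard = u + v := by
  have h1 : {l : Fin (2 * m + 1) | (l : ℕ) < u ∨ (m + 1 ≤ (l : ℕ) ∧ (l : ℕ) < m + 1 + v)}.ncard =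
      ((Finset.range u ∪ Finset.Ico (m + 1) (m + 1 + v) : Finset ℕ) : Set ℕ).ncard := by
    rw [← Set.ncard_image_of_injective _ Fin.val_injective]
    congr 1
    ext x
    simp only [Set.mem_image, Set.mem_ofPred_eq, coe_union, coe_range, coe_Ico, Set.mem_union,
      Set.mem_Iio, Set.mem_Ico]
    constructor
    · rintro ⟨l, h, rfl⟩
      exact h
    · intro h
      exact ⟨⟨x, by omega⟩, h, rfl⟩
  rw [h1, Set.ncard_coe_finset, card_union_of_disjoint, card_range, Nat.card_Ico]
  · omega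
  · rw [disjoint_left]
    intro x hx hx'
    rw [mem_range] at hx
    rw [mem_Ico] at hx'
    omega

theorem on_level {m : ℕ} (l : Fin (2 * m + 1)) (x : ℝ)
    (h1 : ∀ q, q ≠ l → ht (sa m) (sB m) q x ≠ ht (sa m) (sB m) l x)
    (h2 : {q | ht (sa m) (sB m) q x < ht (sa m) (sB m) l x}.ncard = m) :
    l ∈ linesOf (sa m) (sB m) (level (sa m) (sB m) m) Set.univ := by
  have h3 : level (sa m) (sB m) m x = ht (sa m) (sB m) l x := by
    apply level_eq h2.le
    refine lt_of_eq_of_lt h2.symm ?_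
    apply Set.ncard_lt_ncard _ (Set.toFinite _)
    have hsub : {q | ht (sa m) (sB m) q x < ht (sa m) (sB m) l x} ⊆
        {q | ht (sa m) (sB m) q x ≤ ht (sa m) (sB m) l x} := by
      intro q hq
      rw [Set.mem_ofPred_eq] at hq ⊢
      exact hq.le
    rw [Set.ssubset_iff_of_subset hsub]
    refine ⟨l, ?_, ?_⟩
    · rw [Set.mem_ofPred_eq]
    · rw [Set.mem_ofPred_eq]
      exact lt_irrefl _
  refine ⟨x, Set.mem_univ _, ?_⟩
  apply follow isOpen_univ (level_path (by omega) Set.univ) (Set.mem_univ _)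
  intro q hq
  rw [h3]
  exact h1 q hq

theorem all_lines (m : ℕ) :
    linesOf (sa m) (sB m) (level (sa m) (sB m) m) Set.univ = Set.univ := by
  rw [Set.eq_univ_iff_forall]
  intro l
  have hlt := l.2
  by_cases hl : (l : ℕ) ≤ m
  · -- abscissa `m - 2 l`
    have hcmp : ∀ q : Fin (2 * m + 1), (ht (sa m) (sB m) q ((m : ℝ) - 2 * (l : ℕ)) <
        ht (sa m) (sB m) l ((m : ℝ) - 2 * (l : ℕ)) ↔
        ((q : ℕ) < (l : ℕ) ∨ (m + 1 ≤ (q : ℕ) ∧ (q : ℕ) < m + 1 + (m - l)))) ∧
        (q ≠ l → ht (sa m) (sB m) q ((m : ℝ) - 2 * (l : ℕ)) ≠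
          ht (sa m) (sB m) l ((m : ℝ) - 2 * (l : ℕ))) := by
      intro q
      by_cases hq : (q : ℕ) ≤ m
      · refine ⟨?_, fun h => same_ne h (by tauto) _⟩
        rw [ht_up hq, ht_up hl]
        constructor
        · intro h
          left
          have : ((q : ℕ) : ℝ) < (l : ℕ) := by linarith
          exact_mod_cast this
        · rintro (h | h)
          · have : ((q : ℕ) : ℝ) < (l : ℕ) := by exact_mod_cast h
            linarith
          · omega
      · rw [ht_dn hq, ht_up hl]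
        have hz : ∀ (c : ℤ), (-((m : ℝ) - 2 * (l : ℕ)) + 2 * (((q : ℕ) : ℝ) - m) - 1 =
            ((m : ℝ) - 2 * (l : ℕ) + 2 * ((l : ℕ) : ℝ)) + c) ↔
            2 * (l : ℤ) + 2 * (q : ℤ) - 4 * m - 1 = c := by
          intro c
          constructor
          · intro h
            have h2 : (2 * ((l : ℕ) : ℝ) + 2 * ((q : ℕ) : ℝ) - 4 * m - 1 : ℝ) = c := by linarith
            exact_mod_cast h2
          · intro h
            have h2 : (2 * ((l : ℕ) : ℝ) + 2 * ((q : ℕ) : ℝ) - 4 * m - 1 : ℝ) = c := by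
              exact_mod_cast h
            linarith
        have hval := (hz (2 * (l : ℤ) + 2 * (q : ℤ) - 4 * m - 1)).mpr rfl
        rw [hval]
        constructor
        · constructor
          · intro h
            right
            have h2 : ((2 * (l : ℤ) + 2 * (q : ℤ) - 4 * m - 1 : ℤ) : ℝ) < 0 := by linarith
            have h3 : (2 * (l : ℤ) + 2 * (q : ℤ) - 4 * m - 1 : ℤ) < 0 := by exact_mod_cast h2
            omega
          · rintro (h | h)
            · omega
            · have h3 : (2 * (l : ℤ) + 2 * (q : ℤ) - 4 * m - 1 : ℤ) < 0 := by omega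
              have h2 : ((2 * (l : ℤ) + 2 * (q : ℤ) - 4 * m - 1 : ℤ) : ℝ) < 0 := by
                exact_mod_cast h3
              linarith
        · intro _ h
          have h2 : ((2 * (l : ℤ) + 2 * (q : ℤ) - 4 * m - 1 : ℤ) : ℝ) = 0 := by linarith
          have h3 : (2 * (l : ℤ) + 2 * (q : ℤ) - 4 * m - 1 : ℤ) = 0 := by exact_mod_cast h2
          omega
    apply on_level l ((m : ℝ) - 2 * (l : ℕ)) (fun q hq => (hcmp q).2 hq)
    have := count_s m l (m - l) (by omega) (by omega)
    exact (congrArg Set.ncard (Set.ext fun q => (hcmp q).1)).trans (this.trans (by omega))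
  · -- `l = m + 1 + j`, abscissa `2 j - m + 1 = 2 l - 3 m - 1`
    have hcmp : ∀ q : Fin (2 * m + 1), (ht (sa m) (sB m) q (2 * (l : ℕ) - 3 * m - 1 : ℝ) <
        ht (sa m) (sB m) l (2 * (l : ℕ) - 3 * m - 1 : ℝ) ↔
        ((q : ℕ) < (2 * m + 1 - l : ℕ) ∨ (m + 1 ≤ (q : ℕ) ∧ (q : ℕ) < m + 1 + (l - (m + 1))))) ∧
        (q ≠ l → ht (sa m) (sB m) q (2 * (l : ℕ) - 3 * m - 1 : ℝ) ≠
          ht (sa m) (sB m) l (2 * (l : ℕ) - 3 * m - 1 : ℝ)) := by
      intro q
      by_cases hq : (q : ℕ) ≤ m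
      · rw [ht_up hq, ht_dn hl]
        have hval : ((2 * (l : ℕ) - 3 * m - 1 : ℝ) + 2 * ((q : ℕ) : ℝ)) =
            (-(2 * (l : ℕ) - 3 * m - 1 : ℝ) + 2 * (((l : ℕ) : ℝ) - m) - 1) +
              ((2 * (l : ℤ) + 2 * (q : ℤ) - 4 * m - 1 : ℤ) : ℝ) := by
          push_cast
          ring
        rw [hval]
        constructor
        · constructor
          · intro h
            left
            have h2 : ((2 * (l : ℤ) + 2 * (q : ℤ) - 4 * m - 1 : ℤ) : ℝ) < 0 := by linarith
            have h3 : (2 * (l : ℤ) + 2 * (q : ℤ) - 4 * m - 1 : ℤ) < 0 := by exact_mod_cast h2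
            omega
          · rintro (h | h)
            · have h3 : (2 * (l : ℤ) + 2 * (q : ℤ) - 4 * m - 1 : ℤ) < 0 := by omega
              have h2 : ((2 * (l : ℤ) + 2 * (q : ℤ) - 4 * m - 1 : ℤ) : ℝ) < 0 := by
                exact_mod_cast h3
              linarith
            · omega
        · intro _ h
          have h2 : ((2 * (l : ℤ) + 2 * (q : ℤ) - 4 * m - 1 : ℤ) : ℝ) = 0 := by linarith
          have h3 : (2 * (l : ℤ) + 2 * (q : ℤ) - 4 * m - 1 : ℤ) = 0 := by exact_mod_cast h2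
          omega
      · refine ⟨?_, fun h => same_ne h (by tauto) _⟩
        rw [ht_dn hq, ht_dn hl]
        constructor
        · intro h
          right
          have h1 : ((q : ℕ) : ℝ) < (l : ℕ) := by linarith
          have h2 : (q : ℕ) < (l : ℕ) := by exact_mod_cast h1
          omega
        · rintro (h | h)
          · omega
          · have h1 : (q : ℕ) < (l : ℕ) := by omega
            have h2 : ((q : ℕ) : ℝ) < (l : ℕ) := by exact_mod_cast h1
            linarith
    apply on_level l (2 * (l : ℕ) - 3 * m - 1 : ℝ) (fun q hq => (hcmp q).2 hq)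
    have := count_s m (2 * m + 1 - l) (l - (m + 1)) (by omega) (by omega)
    exact (congrArg Set.ncard (Set.ext fun q => (hcmp q).1)).trans (this.trans (by omega))

theorem cross_s (m : ℕ) : (cross (sa m) (sB m) (level (sa m) (sB m) m) Set.univ).ncard = m * (m + 1) := by
  classical
  have h1 : cross (sa m) (sB m) (level (sa m) (sB m) m) Set.univ =
      ((({l : Fin (2 * m + 1) | (l : ℕ) ≤ m} : Finset _) ×ˢ
        ({l : Fin (2 * m + 1) | ¬ (l : ℕ) ≤ m} : Finset _) : Finset _) : Set _) := by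
    ext ⟨i, j⟩
    simp only [coe_product, coe_filter, mem_univ, true_and, Set.mem_prod, Set.mem_ofPred_eq]
    constructor
    · rintro ⟨h, _, _, z, _, h2⟩
      simp only at h h2
      by_cases hi : (i : ℕ) ≤ m <;> by_cases hj : (j : ℕ) ≤ m
      · exact absurd h2 (same_ne h.ne (by tauto) z)
      · exact ⟨hi, hj⟩
      · have : (i : ℕ) < (j : ℕ) := h
        omega
      · exact absurd h2 (same_ne h.ne (by tauto) z)
    · rintro ⟨hi, hj⟩
      refine ⟨?_, by rw [all_lines]; exact Set.mem_univ _, by rw [all_lines]; exact Set.mem_univ _,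
        ((((j : ℕ) : ℝ) - m) - 1 / 2 - (i : ℕ)), Set.mem_univ _, ?_⟩
      · show (i : ℕ) < (j : ℕ)
        omega
      · simp only
        rw [ht_up hi, ht_dn hj]
        ring
  have h2 : ({l : Fin (2 * m + 1) | (l : ℕ) ≤ m} : Finset _).card = m + 1 := by
    have := count_s m (m + 1) 0 le_rfl (Nat.zero_le _)
    rw [← Set.ncard_coe_finset]
    rw [Nat.add_zero] at this
    rw [← this]
    congr 1
    ext l
    simp only [coe_filter, mem_univ, true_and, Set.mem_ofPred_eq]
    omega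
  have h3 := Finset.card_filter_add_card_filter_not (s := (univ : Finset (Fin (2 * m + 1))))
    (fun l => (l : ℕ) ≤ m)
  rw [h1, Set.ncard_coe_finset, card_product, h2]
  rw [h2, card_univ, Fintype.card_fin] at h3
  have h4 : ({l : Fin (2 * m + 1) | ¬ (l : ℕ) ≤ m} : Finset _).card = m := by omega
  rw [h4]
  ring

end Pool.Agent.H133.LD
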