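import Pool.Agent.H133.LD.Main

/-! The bound for the number of turns of a path with `s` straight passes. -/

set_option autoImplicit false

open Finset Filter
open scoped Topology

namespace Pool.Agent.H133.LD

open Pool.Agent.Results.MP_a08d0a_co.SmoothedLevel (Simple psi level level_eq exists_level)
open Pool.Agent.H189R2.Lev

variable {n : ℕ} {a B : Fin n → ℝ} {f : ℝ → ℝ}

theorem passes_bad (I : Set ℝ) : passes a B f I ⊆ bad a B := by
  rintro x ⟨_, _, i, j, hij, h1, h2⟩
  exact ⟨i, j, hij, h1.trans h2.symm⟩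

/-- the points of `I \ S` with exactly `j` elements of `S` on the left -/
def piece (S I : Set ℝ) (j : ℕ) : Set ℝ := {x ∈ I | x ∉ S ∧ (S ∩ Set.Iio x).ncard = j}

theorem piece_open {S I : Set ℝ} (hS : S.Finite) (hI : IsOpen I) (j : ℕ) :
    IsOpen (piece S I j) := by
  rw [isOpen_iff_eventually]
  rintro x ⟨hx, hxS, hj⟩
  have h1 : ∀ᶠ y in 𝓝 x, y ∈ I := hI.mem_nhds hx
  have h2 : ∀ᶠ y in 𝓝 x, y ∉ S := hS.isClosed.isOpen_compl.mem_nhds hxS
  have h3 : ∀ᶠ y in 𝓝 x, ∀ s ∈ S, (s < y ↔ s < x) := by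
    rw [hS.eventually_all]
    intro s hs
    have hne : s ≠ x := by
      rintro rfl
      exact hxS hs
    rcases lt_or_gt_of_ne hne with h | h
    · filter_upwards [lt_mem_nhds h] with y hy using iff_of_true hy h
    · filter_upwards [gt_mem_nhds h] with y hy using
        iff_of_false (not_lt.mpr hy.le) (not_lt.mpr h.le)
  filter_upwards [h1, h2, h3] with y hy1 hy2 hy3
  refine ⟨hy1, hy2, ?_⟩
  rw [← hj]
  congr 1
  ext s
  simp only [Set.mem_inter_iff, Set.mem_Iio]
  exact and_congr_right (fun hs => hy3 s hs)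

theorem piece_conn {S I : Set ℝ} (hS : S.Finite) (hI : I.OrdConnected) (j : ℕ) :
    (piece S I j).OrdConnected := by
  constructor
  rintro x ⟨hx, hxS, hxj⟩ y ⟨hy, hyS, hyj⟩ z ⟨hxz, hzy⟩
  have hsub : S ∩ Set.Iio x ⊆ S ∩ Set.Iio y := fun s hs => ⟨hs.1, hs.2.trans_le (hxz.trans hzy)⟩
  have heq : S ∩ Set.Iio x = S ∩ Set.Iio y :=
    Set.eq_of_subset_of_ncard_le hsub (by omega) (hS.subset Set.inter_subset_left)
  have hno : ∀ s ∈ S, s < y → s < x := by
    intro s hs hsy
    have : s ∈ S ∩ Set.Iio x := by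
      rw [heq]
      exact ⟨hs, hsy⟩
    exact this.2
  refine ⟨hI.out hx hy ⟨hxz, hzy⟩, ?_, ?_⟩
  · intro hz
    have hzy' : z < y := lt_of_le_of_ne hzy (by rintro rfl; exact hyS hz)
    exact absurd (hno z hz hzy') (not_lt.mpr hxz)
  · rw [← hxj]
    congr 1
    ext s
    simp only [Set.mem_inter_iff, Set.mem_Iio]
    constructor
    · rintro ⟨h1, h2⟩
      exact ⟨h1, hno s h1 (h2.trans_le hzy)⟩
    · rintro ⟨h1, h2⟩
      exact ⟨h1, h2.trans_le hxz⟩

theorem sum_rpow_le {γ : ℝ} (h0 : 0 ≤ γ) (h1 : γ ≤ 1) (N : ℕ) (x : ℕ → ℝ) (hx : ∀ j, 0 ≤ x j) :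
    ∑ j ∈ range (N + 1), x j ^ γ ≤ ((N : ℝ) + 1) ^ (1 - γ) * (∑ j ∈ range (N + 1), x j) ^ γ := by
  have hN : (0 : ℝ) < (N : ℝ) + 1 := by positivity
  have h := (Real.concaveOn_rpow h0 h1).le_map_sum (t := range (N + 1))
    (w := fun _ => 1 / ((N : ℝ) + 1)) (p := x) (fun _ _ => by positivity)
    (by simp only [sum_const, card_range, nsmul_eq_mul]; push_cast; field_simp)
    (fun j _ => hx j)
  simp only [smul_eq_mul] at h
  rw [← mul_sum, ← mul_sum] at h
  have h2 : 0 ≤ ∑ j ∈ range (N + 1), x j := sum_nonneg (fun j _ => hx j)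
  rw [Real.mul_rpow (by positivity) h2] at h
  have h3 : ∑ j ∈ range (N + 1), x j ^ γ =
      ((N : ℝ) + 1) * (1 / ((N : ℝ) + 1) * ∑ j ∈ range (N + 1), x j ^ γ) := by
    field_simp
  rw [h3]
  calc ((N : ℝ) + 1) * (1 / ((N : ℝ) + 1) * ∑ j ∈ range (N + 1), x j ^ γ)
      ≤ ((N : ℝ) + 1) * ((1 / ((N : ℝ) + 1)) ^ γ * (∑ j ∈ range (N + 1), x j) ^ γ) :=
        mul_le_mul_of_nonneg_left h hN.le
    _ = ((N : ℝ) + 1) ^ (1 - γ) * (∑ j ∈ range (N + 1), x j) ^ γ := by
        rw [Real.rpow_sub hN, Real.rpow_one, Real.div_rpow zero_le_one hN.le, Real.one_rpow]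
        ring

/-- **paths with `s` straight passes**, relative form -/
theorem path_bound {A γ : ℝ} (hA : 0 ≤ A) (hγ : 0 ≤ γ) (hγ1 : γ ≤ 1) (hB : Bound A γ)
    (hS : Simple a B) {I : Set ℝ} (hI : IsOpen I) (hIc : I.OrdConnected)
    (hf : IsPath a B f I) :
    (turns a B f I).Finite ∧ (passes a B f I).Finite ∧
    ((turns a B f I).ncard : ℝ) ≤
      A * (((passes a B f I).ncard : ℝ) + 1) ^ (1 - γ) * (5 * (cross a B f I).ncard) ^ γ := by
  classical
  have hfin : (passes a B f I).Finite := (bad_finite hS).subset (passes_bad I)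
  refine ⟨turns_finite hS hI hf, hfin, ?_⟩
  set S := passes a B f I with hSdef
  set N := S.ncard with hN
  set P : ℕ → Set ℝ := fun j => piece S I j with hP
  have hPI : ∀ j, P j ⊆ I := fun j x hx => hx.1
  have hPpath : ∀ j, IsPath a B f (P j) := fun j =>
    ⟨hf.1.mono (hPI j), fun x hx => hf.2 x (hPI j hx)⟩
  have hPno : ∀ j, passes a B f (P j) = ∅ := by
    intro j
    rw [Set.eq_empty_iff_forall_notMem]
    rintro x ⟨hx, h⟩
    exact hx.2.1 ⟨hx.1, h⟩
  have hloc : ∀ j, ((turns a B f (P j)).ncard : ℝ) ≤ A * (5 * (cross a B f (P j)).ncard) ^ γ :=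
    fun j => local_bound hA hγ hB hS (piece_open hfin hI j) (piece_conn hfin hIc j)
      (hPpath j) (hPno j)
  -- the turns
  have hturn : (turns a B f I).ncard ≤ ∑ j ∈ range (N + 1), (turns a B f (P j)).ncard := by
    have h1 : turns a B f I ⊆ ⋃ j ∈ range (N + 1), turns a B f (P j) := by
      rintro x ⟨hx, h⟩
      have hxS : x ∉ S := fun hxS => h hxS.2.1
      simp only [Set.mem_iUnion, mem_range]
      refine ⟨(S ∩ Set.Iio x).ncard, ?_, ⟨hx, hxS, rfl⟩, h⟩
      have := Set.ncard_le_ncard (s := S ∩ Set.Iio x) (t := S) Set.inter_subset_left hfin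
      omega
    refine (Set.ncard_le_ncard h1 ?_).trans ?_
    · apply Set.Finite.biUnion (Finset.finite_toSet _)
      intro j _
      exact turns_finite hS (piece_open hfin hI j) (hPpath j)
    · exact Finset.set_ncard_biUnion_le _ _
  -- the crossings
  have hcross : ∑ j ∈ range (N + 1), (cross a B f (P j)).ncard ≤ (cross a B f I).ncard := by
    have h1 : ∀ j, (cross a B f (P j)).ncard = ((cross_fin (a := a) (B := B) (f := f) (P j)).toFinset).card :=
      fun j => Set.ncard_eq_toFinset_card _ _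
    rw [sum_congr rfl (fun j _ => h1 j), ← card_biUnion, ← Set.ncard_coe_finset]
    · apply Set.ncard_le_ncard _ (cross_fin I)
      intro q hq
      simp only [coe_biUnion, Set.mem_iUnion, Set.Finite.coe_toFinset] at hq
      obtain ⟨j, _, hq⟩ := hq
      exact cross_mono (hPI j) hq
    · intro i _ j _ hij
      simp only [Function.onFun]
      rw [disjoint_left]
      intro q hqi hqj
      rw [Set.Finite.mem_toFinset] at hqi hqj
      obtain ⟨h2, _, _, z, hz, h3⟩ := hqi
      obtain ⟨_, _, _, z', hz', h4⟩ := hqj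
      have := meet_unique hS h2.ne h3 h4
      subst this
      exact hij (hz.2.2.symm.trans hz'.2.2)
  have h5 : ((turns a B f I).ncard : ℝ) ≤
      ∑ j ∈ range (N + 1), A * (5 * (cross a B f (P j)).ncard) ^ γ := by
    calc ((turns a B f I).ncard : ℝ) ≤ ((∑ j ∈ range (N + 1), (turns a B f (P j)).ncard : ℕ) : ℝ) := by
          exact_mod_cast hturn
      _ = ∑ j ∈ range (N + 1), ((turns a B f (P j)).ncard : ℝ) := by push_cast; rfl
      _ ≤ _ := sum_le_sum (fun j _ => hloc j)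
  rw [← mul_sum] at h5
  refine h5.trans ?_
  rw [mul_assoc]
  apply mul_le_mul_of_nonneg_left _ hA
  have h6 := sum_rpow_le hγ hγ1 N (fun j => 5 * ((cross a B f (P j)).ncard : ℝ))
    (fun j => by positivity)
  refine h6.trans ?_
  apply mul_le_mul_of_nonneg_left _ (by positivity)
  apply Real.rpow_le_rpow (sum_nonneg (fun j _ => by positivity)) _ hγ
  rw [← mul_sum]
  have h7 : ∑ j ∈ range (N + 1), ((cross a B f (P j)).ncard : ℝ) ≤ (cross a B f I).ncard := by
    exact_mod_cast hcross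
  linarith

end Pool.Agent.H133.LD
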